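import Pool.Agent.Q27.SCT.Piece

/-!
# Subquotients of virtually abelian groups; labels
-/

set_option autoImplicit false

namespace Q27.SCT

open Pool.Agent.Y110.FJ
open Pool.Agent.Y462.SS (Closed Wr)
open Q30.FJ

variable {C : ∀ (G : Type) [Group G], Prop}

theorem pow_mem (hC : Closed C) (B : Type) [Group B] (hB : C B) (j : Type) [Fintype j] :
    C (j → B) := by
  refine hC.of_injective _ (fin_sup (fun _ : j => B) Finset.univ) (MonoidHom.mk' (fun f =>
    ⟨f, fun i hi => absurd (Finset.mem_univ i) hi⟩) (fun f g => rfl)) ?_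
    (fin_sup_mem hC (fun _ => hB) _)
  intro f g h
  exact congrArg Subtype.val h

/-- commutative groups -/
theorem comm_mem (hC : Closed C) (A : Type) [Group A] (h : ∀ a b : A, a * b = b * a) : C A := by
  refine of_fg hC A fun s => ?_
  obtain ⟨K, hK⟩ : ∃ K : Subgroup A, K = Subgroup.closure (s : Set A) := ⟨_, rfl⟩
  rw [← hK]
  let _ : CommGroup K := { (inferInstance : Group K) with
    mul_comm := fun a b => Subtype.ext (h a b) }
  have hfg : Group.FG K := by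
    rw [Group.fg_iff_subgroup_fg]
    exact ⟨s, hK.symm⟩
  obtain ⟨ι, j, _, _, p, hp, e, ⟨f⟩⟩ := CommGroup.equiv_free_prod_prod_multiplicative_zmod K
  have hne : ∀ i, NeZero (p i ^ e i) := fun i => ⟨pow_ne_zero _ (hp i).ne_zero⟩
  refine hC.of_injective K _ f.toMonoidHom f.injective (hC.prod _ _ (pow_mem hC _ hC.int j) ?_)
  exact Pool.Agent.Y430.SS.of_finite hC _ inferInstance

/-- subquotients of virtually abelian groups -/
theorem vab_mem (hC : Closed C) {Γ : Type} [Group Γ] (T : Subgroup Γ) (hT : T.FiniteIndex)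
    (hab : ∀ a ∈ T, ∀ b ∈ T, a * b = b * a) (Δ : Subgroup Γ) (N : Subgroup Δ) [N.Normal] :
    C (Δ ⧸ N) := by
  obtain ⟨M, hM⟩ : ∃ M : Subgroup (Δ ⧸ N), M = (T.subgroupOf Δ).map (QuotientGroup.mk' N) :=
    ⟨_, rfl⟩
  have hMi : M.FiniteIndex := by
    have h1 : M.index ∣ (T.subgroupOf Δ).index := by
      rw [hM]
      exact Subgroup.index_map_dvd _ (QuotientGroup.mk'_surjective N)
    have h2 : (T.subgroupOf Δ).FiniteIndex := inferInstance
    exact ⟨fun h => h2.index_ne_zero (Nat.eq_zero_of_zero_dvd (h ▸ h1))⟩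
  refine hC.finiteIndex _ M hMi (comm_mem hC M ?_)
  rintro ⟨a, ha⟩ ⟨b, hb⟩
  rw [hM] at ha hb
  obtain ⟨x, hx, rfl⟩ := ha
  obtain ⟨y, hy, rfl⟩ := hb
  apply Subtype.ext
  show QuotientGroup.mk' N x * QuotientGroup.mk' N y = QuotientGroup.mk' N y * QuotientGroup.mk' N x
  rw [← map_mul, ← map_mul]
  congr 1
  exact Subtype.ext (hab _ hx _ hy)

/-- invariant superatomic algebras can be pulled back -/
theorem ISA.comap {Γ Γ' S S' : Type} [Group Γ] [MulAction Γ S] [Group Γ'] [MulAction Γ' S']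
    {B : Set (Set S)} (h : ISA Γ B) (σ : Γ' → Γ) (π : S' → S) (hπ : ∀ γ s, π (γ • s) = σ γ • π s) :
    ISA Γ' {A | ∃ A' ∈ B, A = π ⁻¹' A'} where
  alg := by
    refine ⟨⟨_, h.alg.univ, rfl⟩, ?_, ?_⟩
    · rintro _ ⟨A, hA, rfl⟩
      exact ⟨_, h.alg.compl A hA, rfl⟩
    · rintro _ ⟨A, hA, rfl⟩ _ ⟨A', hA', rfl⟩
      exact ⟨_, h.alg.inter A hA A' hA', rfl⟩
  sat := by
    intro I hI h0 h1 h2 h3
    obtain ⟨A, hA, hAI, hAs⟩ := h.sat {A | A ∈ B ∧ π ⁻¹' A ∈ I} (fun A hA => hA.1) ⟨h.alg.empty, h0⟩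
      (fun A hA A' hA' hAA => ⟨hA', h1 _ hA.2 _ ⟨A', hA', rfl⟩ (Set.preimage_mono hAA)⟩)
      (fun A hA A' hA' => ⟨h.alg.union hA.1 hA'.1, h2 _ hA.2 _ hA'.2⟩) (fun h => h3 h.2)
    refine ⟨_, ⟨A, hA, rfl⟩, fun h4 => hAI ⟨hA, h4⟩, ?_⟩
    rintro _ ⟨A', hA', rfl⟩
    rcases hAs A' hA' with h4 | h4
    · left
      exact h4.2
    · right
      exact h4.2
  inv := by
    rintro γ _ ⟨A, hA, rfl⟩
    refine ⟨_, h.inv (σ γ) A hA, ?_⟩
    ext s
    show π (γ • s) ∈ A ↔ σ γ • π s ∈ A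
    rw [hπ]

/-- scattered sets can be pulled back -/
theorem Scat.comap {Γ Γ' S S' : Type} [Group Γ] [MulAction Γ S] [Group Γ'] [MulAction Γ' S']
    {A : Set S} (h : Scat Γ A) (σ : Γ' → Γ) (π : S' → S) (hπ : ∀ γ s, π (γ • s) = σ γ • π s) :
    Scat Γ' (π ⁻¹' A) := by
  obtain ⟨B, hB, hA⟩ := h
  exact ⟨_, hB.comap σ π hπ, A, hA, rfl⟩

/-- **labels** -/
theorem labels (hC : ClosedE C) (Γ S P : Type) [Group Γ] [MulAction Γ S] [Group P] [MulAction P S]
    (hΓ : C Γ) (c : P → S → Γ) (hc : ∀ g h s, c (g * h) s = c g (h • s) * c h s)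
    (hact : ∀ g s, g • s = c g s • s) (h1 : ∀ g, (∀ s, c g s = 1) → g = 1)
    (hp : ∀ g : P, ∃ T : Set (Γ × Set S), T.Finite ∧ (∀ p ∈ T, Scat Γ p.2 ∧ ∀ s ∈ p.2, c g s = p.1) ∧
      ∀ s : S, ∃ p ∈ T, s ∈ p.2) : C P := by
  have hc1 : ∀ s, c 1 s = 1 := by
    intro s
    have h2 := hc 1 1 s
    rw [one_smul, mul_one] at h2
    exact left_eq_mul.1 h2
  let act : MulAction P (S × Γ) :=
    { smul := fun g x => (g • x.1, c g x.1 * x.2)
      one_smul := fun x => by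
        show ((1 : P) • x.1, c 1 x.1 * x.2) = x
        rw [one_smul, hc1, one_mul]
      mul_smul := fun g h x => by
        show ((g * h) • x.1, c (g * h) x.1 * x.2) = (g • h • x.1, c g (h • x.1) * (c h x.1 * x.2))
        rw [mul_smul, hc, mul_assoc] }
  have hsm : ∀ (g : P) (x : S × Γ), g • x = (g • x.1, c g x.1 * x.2) := fun g x => rfl
  refine pieces (Γ := Γ) (S := S × Γ) hC ?_ ?_ ?_
  · intro Δ N _ hN
    refine hC.base.of_injective _ Γ (QuotientGroup.lift N Δ.subtype (fun δ hδ => ?_)) ?_ hΓ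
    · obtain ⟨s, hs⟩ := hN {δ} (Set.finite_singleton δ) (by rintro _ rfl; exact hδ)
      have h2 : (δ : Γ) * s.2 = s.2 := congrArg Prod.snd (hs δ rfl)
      exact mul_eq_right.1 h2
    · rw [injective_iff_map_eq_one]
      intro x
      induction x using QuotientGroup.induction_on with
      | H z =>
        intro hz
        have h2 : (z : Γ) = 1 := hz
        have h3 : z = 1 := Subtype.ext h2
        rw [h3]
        rfl
  · intro g hg
    apply h1
    intro s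
    have h2 : c g s * 1 = 1 := congrArg Prod.snd (hg (s, 1))
    rwa [mul_one] at h2
  · intro g
    obtain ⟨T, hT, h2, h3⟩ := hp g
    refine ⟨(fun p : Γ × Set S => (p.1, (Prod.fst : S × Γ → S) ⁻¹' p.2)) '' T, hT.image _, ?_, ?_⟩
    · rintro _ ⟨p, hp, rfl⟩
      refine ⟨(h2 p hp).1.comap (fun γ => γ) Prod.fst (fun γ s => rfl), ?_⟩
      intro x hx
      rw [hsm, hact, (h2 p hp).2 _ hx]
      rfl
    · intro x
      obtain ⟨p, hp, hx⟩ := h3 x.1
      exact ⟨_, ⟨p, hp, rfl⟩, hx⟩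

end Q27.SCT
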