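import Pool.Agent.Q27.SCT.Zd

/-!
# Piecewise affine maps of `ℤ^n` with semilinear pieces and a finite group of linear parts
-/

set_option autoImplicit false

namespace Q27.SCT

open Pool.Agent.Y110.FJ
open Pool.Agent.Y462.SS (Closed Wr)
open Q30.FJ

variable {ι : Type}

/-- half-spaces and residue classes -/
def SemiGen (ι : Type) : Set (Set (ι → ℤ)) :=
  {A | (∃ (ℓ : (ι → ℤ) →+ ℤ) (a : ℤ), A = {s | a ≤ ℓ s}) ∨
    ∃ (ℓ : (ι → ℤ) →+ ℤ) (m : ℕ) (r : ℤ), m ≠ 0 ∧ A = {s | (m : ℤ) ∣ ℓ s - r}}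

/-- the affine maps with linear part in `Λ` -/
def Aff (Λ : Subgroup (((ι → ℤ) ≃ₗ[ℤ] (ι → ℤ)))) : Subgroup (Equiv.Perm (ι → ℤ)) where
  carrier := {σ | ∃ l ∈ Λ, ∃ v : ι → ℤ, ∀ s, σ s = l s + v}
  one_mem' := ⟨1, Λ.one_mem, 0, fun s => by rw [add_zero]; rfl⟩
  mul_mem' := by
    rintro σ τ ⟨l, hl, v, h⟩ ⟨l', hl', v', h'⟩
    refine ⟨l * l', Λ.mul_mem hl hl', l v' + v, fun s => ?_⟩
    rw [Equiv.Perm.mul_apply, h', h, map_add, ← add_assoc]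
    rfl
  inv_mem' := by
    rintro σ ⟨l, hl, v, h⟩
    refine ⟨l⁻¹, Λ.inv_mem hl, -(l⁻¹ v), fun s => ?_⟩
    rw [Equiv.Perm.inv_eq_iff_eq, h, map_add, map_neg]
    have h1 : ∀ x, l (l⁻¹ x) = x := fun x => l.apply_symm_apply x
    rw [h1, h1]
    abel

theorem mem_Aff {Λ : Subgroup (((ι → ℤ) ≃ₗ[ℤ] (ι → ℤ)))} {σ : Equiv.Perm (ι → ℤ)} :
    σ ∈ Aff Λ ↔ ∃ l ∈ Λ, ∃ v : ι → ℤ, ∀ s, σ s = l s + v := Iff.rfl

/-- the translations have finite index -/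
theorem aff_index (Λ : Subgroup (((ι → ℤ) ≃ₗ[ℤ] (ι → ℤ)))) [Finite Λ] :
    ∃ T : Subgroup (Aff Λ), T.FiniteIndex ∧ ∀ a ∈ T, ∀ b ∈ T, a * b = b * a := by
  have hex : ∀ σ : Aff Λ, ∃ l : Λ, ∃ v : ι → ℤ, ∀ s, σ.1 s = l.1 s + v := by
    rintro ⟨σ, l, hl, v, h⟩
    exact ⟨⟨l, hl⟩, v, h⟩
  choose l v h using hex
  have hv : ∀ σ : Aff Λ, σ.1 0 = v σ := by
    intro σ
    rw [h, map_zero, zero_add]
  let L : Aff Λ →* Λ := MonoidHom.mk' l (by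
    intro σ τ
    apply Subtype.ext
    apply LinearEquiv.ext
    intro s
    have h1 := h (σ * τ) s
    have h2 := hv (σ * τ)
    have h3 : (σ * τ).1 s = σ.1 (τ.1 s) := rfl
    have h4 : (σ * τ).1 0 = σ.1 (τ.1 0) := rfl
    show (l (σ * τ)).1 s = (l σ).1 ((l τ).1 s)
    rw [h3, h σ, h τ, map_add] at h1
    rw [h4, hv τ, h σ] at h2
    rw [← h2, ← add_assoc] at h1
    exact (add_right_cancel (add_right_cancel h1)).symm)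
  refine ⟨L.ker, inferInstance, ?_⟩
  intro a ha b hb
  have ha1 : (l a).1 = 1 := congrArg Subtype.val (MonoidHom.mem_ker.1 ha)
  have hb1 : (l b).1 = 1 := congrArg Subtype.val (MonoidHom.mem_ker.1 hb)
  apply Subtype.ext
  apply Equiv.ext
  intro s
  show a.1 (b.1 s) = b.1 (a.1 s)
  rw [h a, h b, h b, h a, ha1, hb1]
  show s + v b + v a = s + v a + v b
  abel

/-- semilinear sets are scattered -/
theorem semi_scat (Λ : Subgroup (((ι → ℤ) ≃ₗ[ℤ] (ι → ℤ)))) [Finite Λ] {A : Set (ι → ℤ)}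
    (hA : A ∈ gen (SemiGen ι)) : Scat (Aff Λ) A := by
  refine gen_le scat_alg ?_ hA
  rintro A (⟨ℓ, a, rfl⟩ | ⟨ℓ, m, r, hm, rfl⟩)
  · obtain ⟨G, hG⟩ : ∃ G : Λ → Set (Set (ι → ℤ)), G = fun l =>
        {A | ∃ a : ℤ, A = {s | a ≤ ℓ (l.1 s)}} := ⟨_, rfl⟩
    refine ⟨gen (⋃ l ∈ Set.univ, G l), ⟨gen_alg _, sat_gen_biUnion Set.finite_univ G ?_,
      inv_gen ?_⟩, ?_⟩
    · intro l _
      rw [hG]
      exact sat_half (fun s => ℓ (l.1 s))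
    · intro σ A hA
      obtain ⟨l, -, hl⟩ := Set.mem_iUnion₂.1 hA
      rw [hG] at hl
      obtain ⟨a, rfl⟩ := hl
      obtain ⟨l', hl', v, h⟩ := mem_Aff.1 σ.2
      apply sub_gen
      refine Set.mem_iUnion₂.2 ⟨l * ⟨l', hl'⟩, Set.mem_univ _, ?_⟩
      rw [hG]
      refine ⟨a - ℓ (l.1 v), ?_⟩
      ext s
      show a ≤ ℓ (l.1 (σ.1 s)) ↔ a - ℓ (l.1 v) ≤ ℓ (l.1 (l' s))
      rw [h, map_add, map_add]
      omega
    · apply sub_gen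
      refine Set.mem_iUnion₂.2 ⟨1, Set.mem_univ _, ?_⟩
      rw [hG]
      exact ⟨a, rfl⟩
  · obtain ⟨G, hG⟩ : ∃ G : Set (Set (ι → ℤ)), G =
        {A | ∃ (l : Λ) (b : ℤ), A = {s | (m : ℤ) ∣ ℓ (l.1 s) - b}} := ⟨_, rfl⟩
    refine ⟨gen G, ⟨gen_alg _, sat_gen_finite ?_, inv_gen ?_⟩, ?_⟩
    · have h1 : G ⊆ (fun x : Λ × Fin m => {s | (m : ℤ) ∣ ℓ (x.1.1 s) - (x.2 : ℕ)}) '' Set.univ := by
        rw [hG]
        rintro _ ⟨l, b, rfl⟩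
        have hb0 : 0 ≤ b % m := Int.emod_nonneg b (by exact_mod_cast hm)
        have hb1 : b % m < m := Int.emod_lt_of_pos b (by positivity)
        refine ⟨(l, ⟨(b % m).toNat, by omega⟩), Set.mem_univ _, ?_⟩
        ext s
        show (m : ℤ) ∣ ℓ (l.1 s) - (((b % m).toNat : ℕ) : ℤ) ↔ (m : ℤ) ∣ ℓ (l.1 s) - b
        rw [Int.toNat_of_nonneg hb0]
        have h2 : (m : ℤ) ∣ b - b % m := Int.dvd_self_sub_emod
        constructor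
        · intro h3
          have h4 := dvd_sub h3 h2
          rwa [show ℓ (l.1 s) - b % ↑m - (b - b % ↑m) = ℓ (l.1 s) - b by ring] at h4
        · intro h3
          have h4 := dvd_add h3 h2
          rwa [show ℓ (l.1 s) - b + (b - b % ↑m) = ℓ (l.1 s) - b % ↑m by ring] at h4
      exact (Set.finite_univ.image _).subset h1
    · rintro σ A hA
      rw [hG] at hA
      obtain ⟨l, b, rfl⟩ := hA
      obtain ⟨l', hl', v, h⟩ := mem_Aff.1 σ.2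
      apply sub_gen
      rw [hG]
      refine ⟨l * ⟨l', hl'⟩, b - ℓ (l.1 v), ?_⟩
      ext s
      show (m : ℤ) ∣ ℓ (l.1 (σ.1 s)) - b ↔ (m : ℤ) ∣ ℓ (l.1 (l' s)) - (b - ℓ (l.1 v))
      rw [h, map_add, map_add]
      rw [show ℓ (l.1 (l' s)) + ℓ (l.1 v) - b = ℓ (l.1 (l' s)) - (b - ℓ (l.1 v)) by ring]
    · apply sub_gen
      rw [hG]
      exact ⟨1, r, rfl⟩

/-- **piecewise affine maps** -/
theorem aff_main {C : ∀ (G : Type) [Group G], Prop} (hC : ClosedE C)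
    (Λ : Subgroup (((ι → ℤ) ≃ₗ[ℤ] (ι → ℤ)))) [Finite Λ] (P : Type) [Group P] [MulAction P (ι → ℤ)]
    (hfaith : ∀ g : P, (∀ s : ι → ℤ, g • s = s) → g = 1)
    (hp : ∀ g : P, ∃ T : Set (((ι → ℤ) ≃ₗ[ℤ] (ι → ℤ)) × (ι → ℤ) × Set (ι → ℤ)), T.Finite ∧
      (∀ p ∈ T, p.1 ∈ Λ ∧ p.2.2 ∈ gen (SemiGen ι) ∧ ∀ s ∈ p.2.2, g • s = p.1 s + p.2.1) ∧
      ∀ s, ∃ p ∈ T, s ∈ p.2.2) : C P := by
  obtain ⟨T0, hT0, hT1⟩ := aff_index Λ
  refine pieces (Γ := Aff Λ) (S := ι → ℤ) hC (fun Δ N _ _ => vab_mem hC.base T0 hT0 hT1 Δ N)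
    hfaith ?_
  intro g
  obtain ⟨T, hT, h1, h2⟩ := hp g
  have hσ : ∀ p : ((ι → ℤ) ≃ₗ[ℤ] (ι → ℤ)) × (ι → ℤ) × Set (ι → ℤ), ∃ σ : Aff Λ, p ∈ T →
      ∀ s, σ.1 s = p.1 s + p.2.1 := by
    intro p
    by_cases hp : p ∈ T
    · let σ : Equiv.Perm (ι → ℤ) := p.1.toEquiv.trans (Equiv.addRight p.2.1)
      exact ⟨⟨σ, p.1, (h1 p hp).1, p.2.1, fun s => rfl⟩, fun _ s => rfl⟩
    · exact ⟨1, fun h => absurd h hp⟩
  choose σ hσ using hσ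
  refine ⟨(fun p => (σ p, p.2.2)) '' T, hT.image _, ?_, ?_⟩
  · rintro _ ⟨p, hp, rfl⟩
    refine ⟨semi_scat Λ (h1 p hp).2.1, fun s hs => ?_⟩
    show g • s = (σ p).1 s
    rw [hσ p hp, (h1 p hp).2.2 s hs]
  · intro s
    obtain ⟨p, hp, hs⟩ := h2 s
    exact ⟨_, ⟨p, hp, rfl⟩, hs⟩

end Q27.SCT
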