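import Mathlib

/-!
# Superatomic algebras of sets
-/

set_option autoImplicit false

namespace Q27.SCT

variable {S : Type}

/-- algebras of subsets of `S` -/
structure Alg (B : Set (Set S)) : Prop where
  univ : Set.univ ∈ B
  compl : ∀ A ∈ B, Aᶜ ∈ B
  inter : ∀ A ∈ B, ∀ A' ∈ B, A ∩ A' ∈ B

/-- superatomic algebras: for every proper ideal `I` there is an atom modulo `I` -/
def Sat (B : Set (Set S)) : Prop :=
  ∀ I : Set (Set S), I ⊆ B → ∅ ∈ I → (∀ A ∈ I, ∀ A' ∈ B, A' ⊆ A → A' ∈ I) →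
    (∀ A ∈ I, ∀ A' ∈ I, A ∪ A' ∈ I) → Set.univ ∉ I →
    ∃ A ∈ B, A ∉ I ∧ ∀ A' ∈ B, A ∩ A' ∈ I ∨ A \ A' ∈ I

/-- the algebra generated by a set of subsets -/
inductive Gen (G : Set (Set S)) : Set S → Prop
  | base (A : Set S) : A ∈ G → Gen G A
  | univ : Gen G Set.univ
  | compl (A : Set S) : Gen G A → Gen G Aᶜ
  | inter (A A' : Set S) : Gen G A → Gen G A' → Gen G (A ∩ A')

/-- the algebra generated by a set of subsets, as a set -/
def gen (G : Set (Set S)) : Set (Set S) := {A | Gen G A}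

theorem gen_alg (G : Set (Set S)) : Alg (gen G) where
  univ := Gen.univ
  compl A hA := Gen.compl A hA
  inter A hA A' hA' := Gen.inter A A' hA hA'

theorem sub_gen (G : Set (Set S)) : G ⊆ gen G := fun A hA => Gen.base A hA

theorem gen_le {G B : Set (Set S)} (hB : Alg B) (h : G ⊆ B) : gen G ⊆ B := by
  intro A hA
  induction hA with
  | base A hA => exact h hA
  | univ => exact hB.univ
  | compl A _ ih => exact hB.compl A ih
  | inter A A' _ _ ih ih' => exact hB.inter A ih A' ih'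

theorem Alg.empty {B : Set (Set S)} (hB : Alg B) : ∅ ∈ B := by
  rw [← Set.compl_univ]
  exact hB.compl _ hB.univ

theorem Alg.union {B : Set (Set S)} (hB : Alg B) {A A' : Set S} (h : A ∈ B) (h' : A' ∈ B) :
    A ∪ A' ∈ B := by
  rw [← compl_compl (A ∪ A'), Set.compl_union]
  exact hB.compl _ (hB.inter _ (hB.compl _ h) _ (hB.compl _ h'))

theorem Alg.diff {B : Set (Set S)} (hB : Alg B) {A A' : Set S} (h : A ∈ B) (h' : A' ∈ B) :
    A \ A' ∈ B := hB.inter _ h _ (hB.compl _ h')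

theorem Alg.biUnion {B : Set (Set S)} (hB : Alg B) {ι : Type} {t : Set ι} (ht : t.Finite)
    (A : ι → Set S) (h : ∀ i ∈ t, A i ∈ B) : (⋃ i ∈ t, A i) ∈ B := by
  induction t, ht using Set.Finite.induction_on with
  | empty =>
    rw [Set.biUnion_empty]
    exact hB.empty
  | @insert a s ha hs ih =>
    rw [Set.biUnion_insert]
    exact hB.union (h a (Set.mem_insert a s)) (ih fun i hi => h i (Set.mem_insert_of_mem a hi))

/-- the splitting property passes to the generated algebra -/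
theorem split_gen {B G I : Set (Set S)} (hB : Alg B) (hG : G ⊆ B) (A : Set S) (hA : A ∈ B)
    (h0 : ∅ ∈ I) (h1 : ∀ A ∈ I, ∀ A' ∈ B, A' ⊆ A → A' ∈ I) (h2 : ∀ A ∈ I, ∀ A' ∈ I, A ∪ A' ∈ I)
    (h : ∀ A' ∈ G, A ∩ A' ∈ I ∨ A \ A' ∈ I) : ∀ A' ∈ gen G, A ∩ A' ∈ I ∨ A \ A' ∈ I := by
  intro A' hA'
  have hsub := gen_le hB hG
  induction hA' with
  | base A' hA' => exact h A' hA'
  | univ =>
    right
    rw [Set.sdiff_univ]
    exact h0
  | compl A' _ ih =>
    rcases ih with ih | ih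
    · right
      rwa [Set.sdiff_compl]
    · left
      exact ih
  | inter A' A'' h' h'' ih ih' =>
    have hA'B : A' ∈ B := hsub h'
    have hA''B : A'' ∈ B := hsub h''
    rcases ih with ih | ih
    · left
      exact h1 _ ih _ (hB.inter _ hA _ (hB.inter _ hA'B _ hA''B))
        (Set.inter_subset_inter_right A Set.inter_subset_left)
    · rcases ih' with ih' | ih'
      · left
        exact h1 _ ih' _ (hB.inter _ hA _ (hB.inter _ hA'B _ hA''B))
          (Set.inter_subset_inter_right A Set.inter_subset_right)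
      · right
        rw [Set.sdiff_inter]
        exact h2 _ ih _ ih'

/-- **the algebra generated by two superatomic algebras is superatomic** -/
theorem sat_sup {B₁ B₂ : Set (Set S)} (h₁ : Alg B₁) (h₂ : Alg B₂) (s₁ : Sat B₁) (s₂ : Sat B₂) :
    Sat (gen (B₁ ∪ B₂)) := by
  intro I hI h0 h1 h2 h3
  have hg := gen_alg (B₁ ∪ B₂)
  have hg1 : B₁ ⊆ gen (B₁ ∪ B₂) := fun A hA => sub_gen _ (Or.inl hA)
  have hg2 : B₂ ⊆ gen (B₁ ∪ B₂) := fun A hA => sub_gen _ (Or.inr hA)
  obtain ⟨A₁, hA₁, hA₁I, hs₁⟩ := s₁ (I ∩ B₁) Set.inter_subset_right ⟨h0, h₁.empty⟩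
    (fun A hA A' hA' hAA' => ⟨h1 A hA.1 A' (hg1 hA') hAA', hA'⟩)
    (fun A hA A' hA' => ⟨h2 A hA.1 A' hA'.1, h₁.union hA.2 hA'.2⟩) (fun h => h3 h.1)
  have hA₁I' : A₁ ∉ I := fun h => hA₁I ⟨h, hA₁⟩
  obtain ⟨A₂, hA₂, hA₂I, hs₂⟩ := s₂ {A | A ∈ B₂ ∧ A₁ ∩ A ∈ I} (fun A hA => hA.1)
    ⟨h₂.empty, by rw [Set.inter_empty]; exact h0⟩
    (fun A hA A' hA' hAA' => ⟨hA', h1 _ hA.2 _ (hg.inter _ (hg1 hA₁) _ (hg2 hA'))
      (Set.inter_subset_inter_right A₁ hAA')⟩)
    (fun A hA A' hA' => ⟨h₂.union hA.1 hA'.1, by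
      rw [Set.inter_union_distrib_left]
      exact h2 _ hA.2 _ hA'.2⟩)
    (fun h => hA₁I' (by
      have h4 := h.2
      rwa [Set.inter_univ] at h4))
  have hA₂I' : A₁ ∩ A₂ ∉ I := fun h => hA₂I ⟨hA₂, h⟩
  have hAB := hg.inter _ (hg1 hA₁) _ (hg2 hA₂)
  refine ⟨A₁ ∩ A₂, hAB, hA₂I', ?_⟩
  refine split_gen hg (sub_gen _) (A₁ ∩ A₂) hAB h0 h1 h2 ?_
  rintro A' (hA' | hA')
  · rcases hs₁ A' hA' with h | h
    · left
      exact h1 _ h.1 _ (hg.inter _ hAB _ (hg1 hA'))
        (Set.inter_subset_inter_left A' Set.inter_subset_left)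
    · right
      exact h1 _ h.1 _ (hg.diff hAB (hg1 hA')) (Set.sdiff_subset_sdiff_left Set.inter_subset_left)
  · rcases hs₂ A' hA' with h | h
    · left
      rw [Set.inter_assoc]
      exact h.2
    · right
      rw [Set.inter_sdiff_assoc]
      exact h.2

section act

variable {Γ : Type} [Group Γ] [MulAction Γ S]

/-- invariance under preimages of translations -/
def Inv (Γ : Type) {S : Type} [Group Γ] [MulAction Γ S] (B : Set (Set S)) : Prop :=
  ∀ (γ : Γ), ∀ A ∈ B, {s | γ • s ∈ A} ∈ B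

theorem inv_gen {G : Set (Set S)} (h : ∀ (γ : Γ), ∀ A ∈ G, {s | γ • s ∈ A} ∈ gen G) :
    Inv Γ (gen G) := by
  intro γ A hA
  induction hA with
  | base A hA => exact h γ A hA
  | univ => exact Gen.univ
  | compl A _ ih => exact Gen.compl _ ih
  | inter A A' _ _ ih ih' => exact Gen.inter _ _ ih ih'

/-- the invariant superatomic algebras -/
structure ISA (Γ : Type) {S : Type} [Group Γ] [MulAction Γ S] (B : Set (Set S)) : Prop where
  alg : Alg B
  sat : Sat B
  inv : Inv Γ B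

theorem ISA.sup {B₁ B₂ : Set (Set S)} (h₁ : ISA Γ B₁) (h₂ : ISA Γ B₂) : ISA Γ (gen (B₁ ∪ B₂)) where
  alg := gen_alg _
  sat := sat_sup h₁.alg h₂.alg h₁.sat h₂.sat
  inv := by
    apply inv_gen
    rintro γ A (hA | hA)
    · exact sub_gen _ (Or.inl (h₁.inv γ A hA))
    · exact sub_gen _ (Or.inr (h₂.inv γ A hA))

/-- the trivial algebra -/
theorem isa_bot : ISA Γ ({∅, Set.univ} : Set (Set S)) where
  alg := by
    refine ⟨Or.inr rfl, ?_, ?_⟩
    · rintro A (rfl | hA)
      · right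
        show (∅ : Set S)ᶜ = Set.univ
        exact Set.compl_empty
      · left
        rw [show A = Set.univ from hA, Set.compl_univ]
    · rintro A (rfl | hA) A' hA'
      · left
        exact Set.empty_inter A'
      · rw [show A = Set.univ from hA, Set.univ_inter]
        exact hA'
  sat := by
    intro I hI h0 h1 h2 h3
    refine ⟨Set.univ, Or.inr rfl, h3, ?_⟩
    rintro A' (rfl | hA')
    · left
      rw [Set.inter_empty]
      exact h0
    · right
      rw [show A' = Set.univ from hA', Set.sdiff_self]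
      exact h0
  inv := by
    rintro γ A (rfl | hA)
    · left
      rfl
    · right
      rw [show A = Set.univ from hA]
      rfl

/-- the scattered subsets -/
def Scat (Γ : Type) {S : Type} [Group Γ] [MulAction Γ S] (A : Set S) : Prop :=
  ∃ B : Set (Set S), ISA Γ B ∧ A ∈ B

/-- finitely many scattered sets are in one invariant superatomic algebra -/
theorem scat_finite {ι : Type} {t : Set ι} (ht : t.Finite) (A : ι → Set S)
    (h : ∀ i ∈ t, Scat Γ (A i)) : ∃ B : Set (Set S), ISA Γ B ∧ ∀ i ∈ t, A i ∈ B := by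
  induction t, ht using Set.Finite.induction_on with
  | empty => exact ⟨_, isa_bot, fun i hi => absurd hi (Set.notMem_empty i)⟩
  | @insert a s ha hs ih =>
    obtain ⟨B, hB, hB'⟩ := ih fun i hi => h i (Set.mem_insert_of_mem a hi)
    obtain ⟨B', hB1, hB2⟩ := h a (Set.mem_insert a s)
    refine ⟨_, hB.sup hB1, ?_⟩
    rintro i (rfl | hi)
    · exact sub_gen _ (Or.inr hB2)
    · exact sub_gen _ (Or.inl (hB' i hi))

end act

end Q27.SCT
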