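import Pool.Agent.Q27.SCT.Main

/-!
# Groups of germs and groups of labels
-/

set_option autoImplicit false

namespace Q27.SCT

open Pool.Agent.Y110.FJ
open Pool.Agent.Y462.SS (Closed Wr)
open Q30.FJ Topology Filter

/-- the elements which are trivial near `x` -/
def Grm (P : Type) {X : Type} [Group P] [TopologicalSpace X] [MulAction P X] (x : X) :
    Subgroup P where
  carrier := {g | ∀ᶠ y in 𝓝 x, g • y = y}
  one_mem' := Eventually.of_forall fun y => one_smul P y
  mul_mem' {g h} hg hh := by
    filter_upwards [hg, hh] with y h1 h2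
    rw [mul_smul, h2, h1]
  inv_mem' {g} hg := by
    filter_upwards [hg] with y h1
    rw [inv_smul_eq_iff, h1]

variable {P X : Type} [Group P] [TopologicalSpace X] [MulAction P X]

theorem iso_Grm [ContinuousConstSMul P X] : Iso (Grm P : X → Subgroup P) where
  le x g hg := by
    have h1 : ∀ᶠ y in 𝓝 x, g • y = y := hg
    exact MulAction.mem_stabilizer_iff.2 h1.self_of_nhds
  conj x g h hg := by
    have hg' : ∀ᶠ y in 𝓝 x, g • y = y := hg
    have h1 : Tendsto (fun y : X => h⁻¹ • y) (𝓝 (h • x)) (𝓝 x) := by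
      have h2 := (continuous_const_smul h⁻¹ : Continuous fun y : X => h⁻¹ • y).tendsto (h • x)
      rwa [inv_smul_smul] at h2
    show ∀ᶠ y in 𝓝 (h • x), (h * g * h⁻¹) • y = y
    filter_upwards [h1.eventually hg'] with y hy
    rw [mul_smul, mul_smul, hy, smul_inv_smul]
  opn g := isOpen_setOfPred_eventually_nhds (p := fun y : X => g • y = y)

/-- the elements with trivial label at `x` -/
def Lab {Γ : Type} [Group Γ] (c : P → X → Γ) (hc : ∀ g h x, c (g * h) x = c g (h • x) * c h x)
    (hfix : ∀ g x, c g x = 1 → g • x = x) (x : X) : Subgroup P where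
  carrier := {g | c g x = 1}
  one_mem' := by
    have h1 := hc 1 1 x
    rw [one_smul, mul_one] at h1
    exact left_eq_mul.1 h1
  mul_mem' {g h} hg hh := by
    have h1 : c g x = 1 := hg
    have h2 : c h x = 1 := hh
    show c (g * h) x = 1
    rw [hc, hfix h x h2, h1, h2, mul_one]
  inv_mem' {g} hg := by
    have h1 : c g x = 1 := hg
    have h0 : c 1 x = 1 := by
      have h1 := hc 1 1 x
      rw [one_smul, mul_one] at h1
      exact left_eq_mul.1 h1
    show c g⁻¹ x = 1
    have h2 := hc g⁻¹ g x
    rw [inv_mul_cancel, hfix g x h1, h1, mul_one, h0] at h2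
    exact h2.symm

theorem iso_Lab {Γ : Type} [Group Γ] (c : P → X → Γ)
    (hc : ∀ g h x, c (g * h) x = c g (h • x) * c h x)
    (hfix : ∀ g x, c g x = 1 → g • x = x) (hloc : ∀ g, IsLocallyConstant (c g)) :
    Iso (Lab c hc hfix) where
  le x g hg := MulAction.mem_stabilizer_iff.2 (hfix g x hg)
  conj x g h hg := by
    have h1 : c g x = 1 := hg
    show c (h * g * h⁻¹) (h • x) = 1
    have h2 := hc (h * g) h⁻¹ (h • x)
    rw [inv_smul_smul, hc h g x, hfix g x h1, h1, mul_one] at h2
    have h3 := hc h h⁻¹ (h • x)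
    rw [inv_smul_smul, mul_inv_cancel] at h3
    rw [h2, ← h3]
    have h4 := hc 1 1 (h • x)
    rw [one_smul, mul_one] at h4
    exact left_eq_mul.1 h4
  opn g := (hloc g).isOpen_fiber 1

end Q27.SCT
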