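import Pool.Agent.Q27.SCT.Top

/-!
# Groups of homeomorphisms of compact spaces which are scattered outside a closed set
-/

set_option autoImplicit false

namespace Q27.SCT

open Pool.Agent.Y110.FJ
open Pool.Agent.Y462.SS (Closed Wr)
open Q30.FJ Topology Filter

theorem scattered {C : ∀ (G : Type) [Group G], Prop} (hC : ClosedE C) (P X : Type) [Group P]
    [TopologicalSpace X] [CompactSpace X] [MulAction P X] [ContinuousConstSMul P X]
    (K : X → Subgroup P) (hK : Iso K) (hK1 : ∀ g : P, (∀ x, g ∈ K x) → g = 1) (F : Set X) (hF : IsClosed F) (hFi : ∀ (g : P), ∀ x ∈ F, g • x ∈ F)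
    (hsc : ∀ A : Set X, A.Nonempty → Disjoint A F → ∃ x ∈ A, ∃ U : Set X, IsOpen U ∧ x ∈ U ∧
      U ∩ A ⊆ {x})
    (hgerm : ∀ x ∉ F, ∃ (Q : Type) (_ : Group Q) (φ : MulAction.stabilizer P x →* Q), C Q ∧
      ∀ g : MulAction.stabilizer P x, φ g = 1 ↔ (g : P) ∈ K x)
    (Q : Type) [Group Q] (φ : P →* Q) (hQ : C Q)
    (hφ : ∀ g, φ g = 1 → ∀ x ∈ F, g ∈ K x) : C P := by
  classical
  obtain ⟨S, hS⟩ : ∃ S : Set (Set X), S = {E | IsClosed E ∧ F ⊆ E ∧
      (∀ (g : P), ∀ x ∈ E, g • x ∈ E) ∧ Transp C (φ.ker ⊓ Tri K E)} := ⟨_, rfl⟩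
  have hSu : Set.univ ∈ S := by
    rw [hS]
    refine ⟨isClosed_univ, Set.subset_univ F, fun g x _ => Set.mem_univ _, ?_⟩
    have h1 : φ.ker ⊓ Tri K (Set.univ : Set X) = ⊥ := by
      rw [eq_bot_iff]
      rintro g ⟨-, hg⟩
      rw [Subgroup.mem_bot]
      exact hK1 g fun x => hg x (Set.mem_univ x)
    rw [h1]
    exact transp_bot hC
  obtain ⟨E, hE⟩ := zorn_superset S (by
    intro c hcS hch
    by_cases hcn : c.Nonempty
    · refine ⟨⋂₀ c, ?_, fun s hs => Set.sInter_subset_of_mem hs⟩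
      have hc' : ∀ s ∈ c, IsClosed s ∧ F ⊆ s ∧ (∀ (g : P), ∀ x ∈ s, g • x ∈ s) ∧
          Transp C (φ.ker ⊓ Tri K s) := by
        intro s hs
        have h1 := hcS hs
        rw [hS] at h1
        exact h1
      rw [hS]
      refine ⟨isClosed_sInter fun s hs => (hc' s hs).1,
        Set.subset_sInter fun s hs => (hc' s hs).2.1, fun g x hx => ?_, ?_⟩
      · intro s hs
        exact (hc' s hs).2.2.1 g x (hx s hs)
      · refine transp_union hC _ fun t ht => ?_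
        obtain ⟨D, hD⟩ : ∃ D : Set X, D = ⋃ g ∈ t, {x | g ∉ K x} := ⟨_, rfl⟩
        have hDc : IsCompact D := by
          rw [hD]
          exact (t.finite_toSet.isClosed_biUnion fun g _ => hK.closed g).isCompact
        have : Nonempty c := hcn.to_subtype
        obtain ⟨⟨s, hs⟩, hDs⟩ := hDc.elim_directed_family_closed (fun s : c => (s : Set X))
          (fun s => (hc' s s.2).1) (by
            rw [← Set.sInter_eq_iInter, Set.eq_empty_iff_forall_notMem]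
            rintro x ⟨hx1, hx2⟩
            rw [hD] at hx1
            obtain ⟨g, hg, hgx⟩ := Set.mem_iUnion₂.1 hx1
            exact hgx ((ht g hg).2 x hx2)) (by
            rintro ⟨s, hs⟩ ⟨s', hs'⟩
            rcases hch.total hs hs' with h | h
            · exact ⟨⟨s, hs⟩, le_rfl, h⟩
            · exact ⟨⟨s', hs'⟩, h, le_rfl⟩)
        have hn := hK.normal s (hc' s hs).2.2.1
        refine ⟨φ.ker ⊓ Tri K s, inferInstance,
          inf_le_inf_left _ (Tri_anti K (Set.sInter_subset_of_mem hs)), (hc' s hs).2.2.2,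
          fun g hg => ⟨(ht g hg).1, fun x hx => ?_⟩⟩
        by_contra h1
        have h2 : x ∈ D ∩ s := by
          refine ⟨?_, hx⟩
          rw [hD]
          exact Set.mem_iUnion₂.2 ⟨g, hg, h1⟩
        rw [hDs] at h2
        exact h2
    · refine ⟨Set.univ, hSu, fun s hs => absurd ⟨s, hs⟩ hcn⟩)
  have hES := hE.prop
  rw [hS] at hES
  obtain ⟨hEc, hFE, hEi, hET⟩ := hES
  have hEF : E = F := by
    by_contra hne
    have hA : (E \ F).Nonempty := by
      by_contra h1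
      rw [Set.not_nonempty_iff_eq_empty, Set.sdiff_eq_empty] at h1
      exact hne (h1.antisymm hFE)
    obtain ⟨x0, hx0, U0, hU0, hxU0, hUA0⟩ := hsc (E \ F) hA Set.disjoint_sdiff_left
    obtain ⟨Ω, hΩ⟩ : ∃ Ω : Set X, Ω = {x | x ∈ E ∧ x ∉ F ∧ ∃ U : Set X, IsOpen U ∧ x ∈ U ∧
        U ∩ E ⊆ {x}} := ⟨_, rfl⟩
    have hx0Ω : x0 ∈ Ω := by
      rw [hΩ]
      refine ⟨hx0.1, hx0.2, U0 ∩ Fᶜ, hU0.inter hF.isOpen_compl, ⟨hxU0, hx0.2⟩, ?_⟩
      rintro y ⟨⟨hy1, hy2⟩, hy3⟩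
      exact hUA0 ⟨hy1, hy3, hy2⟩
    have hΩE : Ω ⊆ E := by
      rw [hΩ]
      exact fun x hx => hx.1
    have hΩ1 : ∀ x ∈ Ω, ∃ U : Set X, IsOpen U ∧ x ∈ U ∧ U ∩ E ⊆ {x} := by
      rw [hΩ]
      exact fun x hx => hx.2.2
    have hΩi : ∀ (g : P), ∀ x ∈ Ω, g • x ∈ Ω := by
      intro g x hx
      rw [hΩ] at hx ⊢
      obtain ⟨h1, h2, U, hU, hxU, hUE⟩ := hx
      refine ⟨hEi g x h1, fun h => h2 ?_, (fun y => g⁻¹ • y) ⁻¹' U,
        hU.preimage (continuous_const_smul g⁻¹), ?_, ?_⟩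
      · have h3 := hFi g⁻¹ _ h
        rwa [inv_smul_smul] at h3
      · show g⁻¹ • g • x ∈ U
        rwa [inv_smul_smul]
      · rintro y ⟨hy1, hy2⟩
        have h3 : g⁻¹ • y = x := hUE ⟨hy1, hEi g⁻¹ y hy2⟩
        rw [← h3]
        show y = g • g⁻¹ • y
        rw [smul_inv_smul]
    have hE'c : IsClosed (E \ Ω) := by
      have h1 : E \ Ω = E ∩ (⋃₀ {U : Set X | IsOpen U ∧ ∃ x ∈ Ω, x ∈ U ∧ U ∩ E ⊆ {x}})ᶜ := by
        ext y
        constructor
        · rintro ⟨hy1, hy2⟩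
          refine ⟨hy1, ?_⟩
          rintro ⟨U, ⟨hU, x, hx, hxU, hUE⟩, hyU⟩
          have h2 : y = x := hUE ⟨hyU, hy1⟩
          rw [h2] at hy2
          exact hy2 hx
        · rintro ⟨hy1, hy2⟩
          refine ⟨hy1, fun hy3 => hy2 ?_⟩
          obtain ⟨U, hU, hyU, hUE⟩ := hΩ1 y hy3
          exact ⟨U, ⟨hU, y, hy3, hyU, hUE⟩, hyU⟩
      rw [h1]
      exact hEc.inter (isOpen_sUnion fun U hU => hU.1).isClosed_compl
    have hE'S : E \ Ω ∈ S := by
      rw [hS]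
      refine ⟨hE'c, fun x hx => ⟨hFE hx, fun h => ?_⟩, fun g x hx => ⟨hEi g x hx.1, fun h => ?_⟩, ?_⟩
      · rw [hΩ] at h
        exact h.2.1 hx
      · have h3 := hΩi g⁻¹ _ h
        rw [inv_smul_smul] at h3
        exact hx.2 h3
      · refine top_step hC hK φ.ker E Ω hEc hEi hΩE hΩi hΩ1 (fun x hx => hgerm x ?_) hET
        rw [hΩ] at hx
        exact hx.2.1
    have h1 : E ⊆ E \ Ω := hE.le_of_le hE'S Set.sdiff_subset
    exact (h1 hx0.1).2 hx0Ω
  rw [hEF] at hET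
  refine hET P (MonoidHom.id P) (fun x y h => h) Q φ hQ fun x => ⟨fun h => ⟨h, hφ x h⟩, fun h => h.1⟩

end Q27.SCT
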