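import Pool.Agent.Q27.SCT.Stone

/-!
# Piecewise translations with scattered pieces
-/

set_option autoImplicit false

namespace Q27.SCT

open Pool.Agent.Y110.FJ
open Pool.Agent.Y462.SS (Closed Wr)
open Q30.FJ

section ult

variable {S : Type} {B U : Set (Set S)}

theorem Ult.univ (hB : Alg B) (hU : Ult B U) : Set.univ ∈ U := by
  rcases hU.or _ hB.univ with h | h
  · exact h
  · obtain ⟨s, hs⟩ := hU.ne _ h
    exact absurd (Set.mem_univ s) hs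

theorem Ult.finite_inter (hB : Alg B) (hU : Ult B U) {ι : Type} {t : Set ι} (ht : t.Finite)
    (A : ι → Set S) (h : ∀ i ∈ t, A i ∈ U) : ∃ A₀ ∈ U, ∀ i ∈ t, A₀ ⊆ A i := by
  induction t, ht using Set.Finite.induction_on with
  | empty => exact ⟨_, hU.univ hB, fun i hi => absurd hi (Set.notMem_empty i)⟩
  | @insert a s ha hs ih =>
    obtain ⟨A₀, hA₀, h0⟩ := ih fun i hi => h i (Set.mem_insert_of_mem a hi)
    refine ⟨A₀ ∩ A a, hU.inter _ hA₀ _ (h a (Set.mem_insert a s)), ?_⟩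
    rintro i (rfl | hi)
    · exact Set.inter_subset_right
    · exact Set.inter_subset_left.trans (h0 i hi)

theorem Ult.exists_mem (hB : Alg B) (hU : Ult B U) {ι : Type} {t : Set ι} (ht : t.Finite)
    (A : ι → Set S) (h : ∀ i ∈ t, A i ∈ B) (hc : ∀ s : S, ∃ i ∈ t, s ∈ A i) :
    ∃ i ∈ t, A i ∈ U := by
  by_contra hne
  push Not at hne
  obtain ⟨A₀, hA₀, h0⟩ := hU.finite_inter hB ht (fun i => (A i)ᶜ)
    (fun i hi => (hU.or _ (h i hi)).resolve_left (hne i hi))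
  obtain ⟨s, hs⟩ := hU.ne _ hA₀
  obtain ⟨i, hi, hsi⟩ := hc s
  exact h0 i hi hs hsi

end ult

variable {Γ S P : Type} [Group Γ] [MulAction Γ S] [Group P] [MulAction P S]

/-- on finitely many sets with property `D` that cover `S`, the element `g` acts as elements of `Γ` -/
def Pcw (Γ : Type) {S P : Type} [Group Γ] [MulAction Γ S] [Group P] [MulAction P S]
    (D : Set S → Prop) (g : P) : Prop :=
  ∃ T : Set (Γ × Set S), T.Finite ∧ (∀ p ∈ T, D p.2 ∧ ∀ s ∈ p.2, g • s = p.1 • s) ∧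
    ∀ s : S, ∃ p ∈ T, s ∈ p.2

/-- the subgroup of the elements with pieces in an invariant algebra -/
def pcw {B : Set (Set S)} (hB : ISA Γ B) (P : Type) [Group P] [MulAction P S] : Subgroup P where
  carrier := {g | Pcw Γ (· ∈ B) g}
  one_mem' := by
    refine ⟨{(1, Set.univ)}, Set.finite_singleton _, ?_, fun s => ⟨_, rfl, Set.mem_univ s⟩⟩
    rintro p rfl
    exact ⟨hB.alg.univ, fun s _ => by rw [one_smul, one_smul]⟩
  mul_mem' {g h} hg hh := by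
    obtain ⟨T, hT, h1, h2⟩ := hg
    obtain ⟨T', hT', h1', h2'⟩ := hh
    refine ⟨Set.image2 (fun p q : Γ × Set S => (p.1 * q.1, q.2 ∩ {s | q.1 • s ∈ p.2})) T T',
      hT.image2 _ hT', ?_, ?_⟩
    · rintro _ ⟨p, hp, q, hq, rfl⟩
      refine ⟨hB.alg.inter _ (h1' q hq).1 _ (hB.inv q.1 _ (h1 p hp).1), ?_⟩
      rintro s ⟨hs1, hs2⟩
      show (g * h) • s = (p.1 * q.1) • s
      rw [mul_smul, mul_smul, (h1' q hq).2 s hs1]
      exact (h1 p hp).2 _ hs2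
    · intro s
      obtain ⟨q, hq, hsq⟩ := h2' s
      obtain ⟨p, hp, hsp⟩ := h2 (q.1 • s)
      exact ⟨_, ⟨p, hp, q, hq, rfl⟩, hsq, hsp⟩
  inv_mem' {g} hg := by
    obtain ⟨T, hT, h1, h2⟩ := hg
    refine ⟨(fun p : Γ × Set S => (p.1⁻¹, {s | p.1⁻¹ • s ∈ p.2})) '' T, hT.image _, ?_, ?_⟩
    · rintro _ ⟨p, hp, rfl⟩
      refine ⟨hB.inv p.1⁻¹ _ (h1 p hp).1, ?_⟩
      intro s hs
      show g⁻¹ • s = p.1⁻¹ • s
      have h3 := (h1 p hp).2 _ hs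
      rw [smul_inv_smul] at h3
      rw [inv_smul_eq_iff, h3]
    · intro s
      obtain ⟨p, hp, hsp⟩ := h2 (g⁻¹ • s)
      refine ⟨_, ⟨p, hp, rfl⟩, ?_⟩
      have h3 := (h1 p hp).2 _ hsp
      rw [smul_inv_smul] at h3
      show p.1⁻¹ • s ∈ p.2
      rw [inv_smul_eq_iff.2 h3]
      exact hsp

theorem mem_pcw {B : Set (Set S)} (hB : ISA Γ B) (g : P) : g ∈ pcw hB P ↔ Pcw Γ (· ∈ B) g := Iff.rfl

theorem inv_pcw {B : Set (Set S)} (hB : ISA Γ B) : Inv ↥(pcw hB P) B := by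
  rintro ⟨g, T, hT, h1, h2⟩ A hA
  have h3 : {s : S | g • s ∈ A} = ⋃ p ∈ T, p.2 ∩ {s | p.1 • s ∈ A} := by
    ext s
    rw [Set.mem_iUnion₂]
    constructor
    · intro hs
      obtain ⟨p, hp, hsp⟩ := h2 s
      refine ⟨p, hp, hsp, ?_⟩
      have h4 : g • s ∈ A := hs
      rwa [(h1 p hp).2 s hsp] at h4
    · rintro ⟨p, hp, hsp, hs⟩
      show g • s ∈ A
      rw [(h1 p hp).2 s hsp]
      exact hs
  show {s : S | g • s ∈ A} ∈ B
  rw [h3]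
  exact hB.alg.biUnion hT _ fun p hp => hB.alg.inter _ (h1 p hp).1 _ (hB.inv p.1 A hA)

/-- the elements trivial near an ultrafilter -/
def NU {B : Set (Set S)} (hB : ISA Γ B) {U : Set (Set S)} (hU : Ult B U) :
    Subgroup ↥(Stb Γ B U hB.inv) where
  carrier := {δ | ∃ A ∈ U, ∀ s ∈ A, (δ : Γ) • s = s}
  one_mem' := ⟨_, hU.univ hB.alg, fun s _ => one_smul Γ s⟩
  mul_mem' := by
    rintro a b ⟨A, hA, h1⟩ ⟨A', hA', h1'⟩
    refine ⟨A ∩ A', hU.inter _ hA _ hA', fun s hs => ?_⟩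
    show ((a : Γ) * (b : Γ)) • s = s
    rw [mul_smul, h1' s hs.2, h1 s hs.1]
  inv_mem' := by
    rintro a ⟨A, hA, h1⟩
    refine ⟨A, hA, fun s hs => ?_⟩
    show (a : Γ)⁻¹ • s = s
    rw [inv_smul_eq_iff, h1 s hs]

theorem NU_normal {B : Set (Set S)} (hB : ISA Γ B) {U : Set (Set S)} (hU : Ult B U) :
    (NU hB hU).Normal := by
  constructor
  rintro a ⟨A, hA, h1⟩ b
  refine ⟨{s | (b : Γ)⁻¹ • s ∈ A}, ?_, fun s hs => ?_⟩
  · have h2 : (b : Γ)⁻¹ ∈ Stb Γ B U hB.inv := (Stb Γ B U hB.inv).inv_mem b.2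
    exact (h2 A (hU.sub hA)).2 hA
  · show ((b : Γ) * (a : Γ) * (b : Γ)⁻¹) • s = s
    rw [mul_smul, mul_smul, h1 _ hs, smul_inv_smul]

/-- the case of one invariant algebra -/
theorem pcw_mem {C : ∀ (G : Type) [Group G], Prop} (hC : ClosedE C)
    (hΓ : ∀ (Δ : Subgroup Γ) (N : Subgroup Δ) [N.Normal],
      (∀ t : Set Δ, t.Finite → t ⊆ N → ∃ s : S, ∀ δ ∈ t, (δ : Γ) • s = s) → C (Δ ⧸ N))
    (hfaith : ∀ g : P, (∀ s : S, g • s = s) → g = 1) {B : Set (Set S)} (hB : ISA Γ B) :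
    C ↥(pcw hB P) := by
  refine stone hC ↥(pcw hB P) S (fun g hg => Subtype.ext (hfaith g hg)) B hB.alg hB.sat
    (inv_pcw hB) ?_
  intro U hU
  have hNn := NU_normal hB hU
  -- representatives
  have hrep : ∀ g : ↥(Stb ↥(pcw hB P) B U (inv_pcw hB)), ∃ γ : ↥(Stb Γ B U hB.inv), ∃ A ∈ U,
      ∀ s ∈ A, (g : ↥(pcw hB P)) • s = (γ : Γ) • s := by
    rintro ⟨⟨g, T, hT, h1, h2⟩, hg⟩
    obtain ⟨p, hp, hpU⟩ := hU.exists_mem hB.alg hT Prod.snd (fun p hp => (h1 p hp).1) h2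
    refine ⟨⟨p.1, ?_⟩, p.2, hpU, (h1 p hp).2⟩
    intro A hA
    have h3 := hg A hA
    rw [← h3]
    have h4 : {s : S | g • s ∈ A} ∈ B := inv_pcw hB ⟨g, T, hT, h1, h2⟩ A hA
    constructor
    · intro h
      refine hU.up _ (hU.inter _ hpU _ h) _ h4 ?_
      rintro s ⟨hs1, hs2⟩
      show g • s ∈ A
      rw [(h1 p hp).2 s hs1]
      exact hs2
    · intro h
      refine hU.up _ (hU.inter _ hpU _ h) _ (hB.inv p.1 A hA) ?_
      rintro s ⟨hs1, hs2⟩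
      show p.1 • s ∈ A
      rw [← (h1 p hp).2 s hs1]
      exact hs2
  choose γ hγ using hrep
  refine ⟨↥(Stb Γ B U hB.inv) ⧸ NU hB hU, inferInstance, MonoidHom.mk'
    (fun g => (QuotientGroup.mk (γ g) : ↥(Stb Γ B U hB.inv) ⧸ NU hB hU)) ?_, ?_, ?_⟩
  · intro g h
    rw [← QuotientGroup.mk_mul, QuotientGroup.eq]
    obtain ⟨A, hA, h1⟩ := hγ (g * h)
    obtain ⟨A', hA', h1'⟩ := hγ g
    obtain ⟨A'', hA'', h1''⟩ := hγ h
    refine ⟨A ∩ (A'' ∩ {s | (γ h : Γ) • s ∈ A'}), hU.inter _ hA _ (hU.inter _ hA'' _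
      (((γ h).2 A' (hU.sub hA')).2 hA')), fun s hs => ?_⟩
    show ((γ (g * h) : Γ)⁻¹ * ((γ g : Γ) * (γ h : Γ))) • s = s
    rw [mul_smul, inv_smul_eq_iff, ← h1 s hs.1, mul_smul, ← h1' _ hs.2.2, ← h1'' s hs.2.1]
    show (((g : ↥(pcw hB P)) : P)) • (((h : ↥(pcw hB P)) : P)) • s =
      (((g : ↥(pcw hB P)) : P) * ((h : ↥(pcw hB P)) : P)) • s
    rw [mul_smul]
  · refine hΓ _ _ fun t ht htN => ?_
    choose! A hA hA1 using (fun δ (hδ : δ ∈ t) => (show ∃ A ∈ U, ∀ s ∈ A, (δ : Γ) • s = s from htN hδ))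
    obtain ⟨A₀, hA₀, h0⟩ := hU.finite_inter hB.alg ht A hA
    obtain ⟨s, hs⟩ := hU.ne _ hA₀
    exact ⟨s, fun δ hδ => hA1 δ hδ s (h0 δ hδ hs)⟩
  · intro g
    show (QuotientGroup.mk (γ g) : ↥(Stb Γ B U hB.inv) ⧸ NU hB hU) = 1 ↔ _
    rw [QuotientGroup.eq_one_iff]
    obtain ⟨A, hA, h1⟩ := hγ g
    constructor
    · rintro ⟨A', hA', h1'⟩
      exact ⟨A ∩ A', hU.inter _ hA _ hA', fun s hs => by
        rw [h1 s hs.1, h1' s hs.2]⟩
    · rintro ⟨A', hA', h1'⟩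
      exact ⟨A ∩ A', hU.inter _ hA _ hA', fun s hs => by
        rw [← h1 s hs.1, h1' s hs.2]⟩

/-- **groups of permutations which are piecewise in `Γ` with scattered pieces** -/
theorem pieces {C : ∀ (G : Type) [Group G], Prop} (hC : ClosedE C)
    (hΓ : ∀ (Δ : Subgroup Γ) (N : Subgroup Δ) [N.Normal],
      (∀ t : Set Δ, t.Finite → t ⊆ N → ∃ s : S, ∀ δ ∈ t, (δ : Γ) • s = s) → C (Δ ⧸ N))
    (hfaith : ∀ g : P, (∀ s : S, g • s = s) → g = 1)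
    (hp : ∀ g : P, Pcw (S := S) Γ (Scat Γ) g) : C P := by
  have hdir : ∀ i j : {B : Set (Set S) // ISA Γ B}, ∃ k, i ≤ k ∧ j ≤ k := by
    rintro ⟨B, hB⟩ ⟨B', hB'⟩
    exact ⟨⟨_, hB.sup hB'⟩, fun A hA => sub_gen _ (Or.inl hA), fun A hA => sub_gen _ (Or.inr hA)⟩
  have hne : Nonempty {B : Set (Set S) // ISA Γ B} := ⟨⟨_, isa_bot⟩⟩
  refine Pool.Agent.Y430.SS.of_directed hC.base P {B : Set (Set S) // ISA Γ B} hdir
    (fun B => pcw B.2 P) ?_ ?_ (fun B => pcw_mem hC hΓ hfaith B.2)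
  · rintro ⟨B, hB⟩ ⟨B', hB'⟩ h g ⟨T, hT, h1, h2⟩
    exact ⟨T, hT, fun p hp => ⟨h (h1 p hp).1, (h1 p hp).2⟩, h2⟩
  · intro g
    obtain ⟨T, hT, h1, h2⟩ := hp g
    obtain ⟨B, hB, hB'⟩ := scat_finite hT Prod.snd (fun p hp => (h1 p hp).1)
    exact ⟨⟨B, hB⟩, T, hT, fun p hp => ⟨hB' p hp, (h1 p hp).2⟩, h2⟩

end Q27.SCT
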