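import Pool.Agent.Q27.SCT.Trans
import Pool.Agent.Q30.FJ.Res

/-!
# The monomial representation given by groups of germs
-/

set_option autoImplicit false

namespace Q27.SCT

open Pool.Agent.Y110.FJ
open Pool.Agent.Y462.SS (Closed Wr)
open Q30.FJ

variable {C : ∀ (G : Type) [Group G], Prop} {P : Type} [Group P]

/-- `T y g` says that `g` is trivial near `y` -/
theorem mono_rep (hC : Closed C) (Y : Type) [MulAction P Y] (T : Y → P → Prop)
    (hT2 : ∀ y g h, T y g → T (h • y) (h * g * h⁻¹))
    (hφ : ∀ y : Y, ∃ (Q : Type) (_ : Group Q) (φ : MulAction.stabilizer P y →* Q), C Q ∧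
      ∀ g, φ g = 1 ↔ T y g) :
    ∃ (H : Type) (_ : Group H) (ρ : P →* Wr Y H), C H ∧ (∀ g y, (ρ g).p y = g • y) ∧
      ∀ g y, g • y = y → ((ρ g).s y = 1 ↔ T y g) := by
  classical
  choose Q hQg φ hCQ hφ1 using hφ
  -- base points
  obtain ⟨b, hb⟩ : ∃ b : Y → Y, b = fun y => (Quotient.mk (MulAction.orbitRel P Y) y).out := ⟨_, rfl⟩
  have hb1 : ∀ (g : P) (y : Y), b (g • y) = b y := by
    intro g y
    rw [hb]
    show (Quotient.mk (MulAction.orbitRel P Y) (g • y)).out =
      (Quotient.mk (MulAction.orbitRel P Y) y).out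
    congr 1
    apply Quotient.sound
    exact ⟨g, rfl⟩
  have hb2 : ∀ y : Y, ∃ t : P, t • b y = y := by
    intro y
    have h1 : (MulAction.orbitRel P Y) (Quotient.mk (MulAction.orbitRel P Y) y).out y :=
      Quotient.mk_out y
    obtain ⟨t, ht⟩ := (MulAction.orbitRel P Y).symm h1
    exact ⟨t, by rw [hb]; exact ht⟩
  choose t ht using hb2
  have hsi : ∀ y, ∃ ι : Q y →* fsum Q, Function.Injective ι := fun y => fsum_single y
  choose ι hι using hsi
  obtain ⟨e, he⟩ : ∃ e : Y → P → fsum Q, ∀ z x (h : x ∈ MulAction.stabilizer P z),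
      e z x = ι z (φ z ⟨x, h⟩) :=
    ⟨fun z x => if h : x ∈ MulAction.stabilizer P z then ι z (φ z ⟨x, h⟩) else 1,
      fun z x h => dif_pos h⟩
  have hemul : ∀ z x x', x ∈ MulAction.stabilizer P z → x' ∈ MulAction.stabilizer P z →
      e z (x * x') = e z x * e z x' := by
    intro z x x' h h'
    rw [he z x h, he z x' h', he z (x * x') (mul_mem h h'), ← map_mul, ← map_mul]
    rfl
  have heone : ∀ z x, x ∈ MulAction.stabilizer P z → (e z x = 1 ↔ T z x) := by
    intro z x h
    rw [he z x h, ← hφ1 z ⟨x, h⟩]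
    constructor
    · intro h1
      exact hι z (by rw [h1, map_one])
    · intro h1
      rw [h1, map_one]
  have hst : ∀ (g : P) (y : Y), (t (g • y))⁻¹ * g * t y ∈ MulAction.stabilizer P (b y) := by
    intro g y
    rw [MulAction.mem_stabilizer_iff, mul_smul, mul_smul, ht, inv_smul_eq_iff, ← hb1 g y, ht]
  refine ⟨fsum Q, inferInstance, MonoidHom.mk' (fun g => ⟨fun y => e (b y) ((t (g • y))⁻¹ * g * t y),
    MulAction.toPerm g⟩) ?_, fsum_mem hC hCQ, fun g y => rfl, ?_⟩
  · intro g h
    apply Wr.ext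
    · funext y
      show e (b y) ((t ((g * h) • y))⁻¹ * (g * h) * t y) =
        e (b (h • y)) ((t (g • h • y))⁻¹ * g * t (h • y)) * e (b y) ((t (h • y))⁻¹ * h * t y)
      have h1 := hst g (h • y)
      rw [hb1] at h1
      rw [hb1, ← hemul _ _ _ h1 (hst h y), mul_smul]
      congr 1
      group
    · ext y
      show (g * h) • y = g • h • y
      exact mul_smul g h y
  · intro g y hgy
    show e (b y) ((t (g • y))⁻¹ * g * t y) = 1 ↔ T y g
    rw [heone _ _ (hst g y), hgy]
    constructor
    · intro h1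
      have h2 := hT2 _ _ (t y) h1
      rw [ht] at h2
      convert h2 using 1
      group
    · intro h1
      have h2 := hT2 _ _ (t y)⁻¹ h1
      have h3 : (t y)⁻¹ • y = b y := by
        rw [inv_smul_eq_iff, ht]
      rw [h3] at h2
      convert h2 using 1
      group

end Q27.SCT
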