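import Pool.Agent.Q27.SCT.Cor
import Pool.Agent.Q27.SCT.Alg

/-!
# The space of ultrafilters of an invariant superatomic algebra
-/

set_option autoImplicit false

namespace Q27.SCT

open Pool.Agent.Y110.FJ
open Pool.Agent.Y462.SS (Closed Wr)
open Q30.FJ Topology Filter

variable {S : Type}

/-- ultrafilters of an algebra of sets -/
structure Ult (B : Set (Set S)) (U : Set (Set S)) : Prop where
  sub : U ⊆ B
  ne : ∀ A ∈ U, A.Nonempty
  inter : ∀ A ∈ U, ∀ A' ∈ U, A ∩ A' ∈ U
  up : ∀ A ∈ U, ∀ A' ∈ B, A ⊆ A' → A' ∈ U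
  or : ∀ A ∈ B, A ∈ U ∨ Aᶜ ∈ U

/-- the stabilizer of an ultrafilter -/
def Stb (P : Type) {S : Type} [Group P] [MulAction P S] (B U : Set (Set S)) (hi : Inv P B) :
    Subgroup P where
  carrier := {g | ∀ A ∈ B, {s | g • s ∈ A} ∈ U ↔ A ∈ U}
  one_mem' := by
    intro A _
    simp only [one_smul]
    rfl
  mul_mem' {g h} hg hh := by
    intro A hA
    have h1 := hh _ (hi g A hA)
    have h2 : {s | (g * h) • s ∈ A} = {s | h • s ∈ {s | g • s ∈ A}} := by
      ext s
      show (g * h) • s ∈ A ↔ g • h • s ∈ A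
      rw [mul_smul]
    rw [h2, h1]
    exact hg A hA
  inv_mem' {g} hg := by
    intro A hA
    have h1 := hg _ (hi g⁻¹ A hA)
    rw [← h1]
    have h2 : {s | g • s ∈ {s | g⁻¹ • s ∈ A}} = A := by
      ext s
      show g⁻¹ • g • s ∈ A ↔ s ∈ A
      rw [inv_smul_smul]
    rw [h2]

section stone

variable (B : Set (Set S))

/-- the point of a product given by an element -/
noncomputable def pt (s : S) : ↥B → Bool := fun A =>
  @decide (s ∈ (A : Set S)) (Classical.propDecidable _)

theorem pt_iff (s : S) (A : ↥B) : pt B s A = true ↔ s ∈ (A : Set S) := by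
  unfold pt
  exact @decide_eq_true_iff _ (Classical.propDecidable _)

/-- the Stone space -/
def Sto : Set (↥B → Bool) := closure (Set.range (pt B))

variable {B}

theorem sto_dense {u : ↥B → Bool} (hu : u ∈ Sto B) (t : Set ↥B) (ht : t.Finite) :
    ∃ s : S, ∀ A ∈ t, (u A = true ↔ s ∈ (A : Set S)) := by
  have h1 : {v : ↥B → Bool | ∀ A ∈ t, v A = u A} ∈ 𝓝 u := by
    have h2 : {v : ↥B → Bool | ∀ A ∈ t, v A = u A} = ⋂ A ∈ t, {v : ↥B → Bool | v A = u A} := by
      ext v
      simp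
    rw [h2, Filter.biInter_mem ht]
    intro A _
    have h3 : IsOpen {v : ↥B → Bool | v A = u A} := by
      have h4 : {v : ↥B → Bool | v A = u A} = (fun v => v A) ⁻¹' {u A} := rfl
      rw [h4]
      exact (isOpen_discrete _).preimage (continuous_apply A)
    exact h3.mem_nhds rfl
  obtain ⟨v, hv1, s, rfl⟩ := mem_closure_iff_nhds.1 hu _ h1
  refine ⟨s, fun A hA => ?_⟩
  rw [← hv1 A hA, pt_iff]

/-- the ultrafilter of a point -/
def ult (u : ↥B → Bool) : Set (Set S) := {A | ∃ h : A ∈ B, u ⟨A, h⟩ = true}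

theorem mem_ult {u : ↥B → Bool} {A : Set S} (hA : A ∈ B) : A ∈ ult u ↔ u ⟨A, hA⟩ = true :=
  ⟨fun ⟨_, h⟩ => h, fun h => ⟨hA, h⟩⟩

theorem ult_dense {u : ↥B → Bool} (hu : u ∈ Sto B) (t : Set (Set S)) (ht : t.Finite) (htB : t ⊆ B) :
    ∃ s : S, ∀ A ∈ t, (A ∈ ult u ↔ s ∈ A) := by
  obtain ⟨s, hs⟩ := sto_dense hu ((↑) ⁻¹' t : Set ↥B)
    (ht.preimage (Subtype.val_injective.injOn))
  refine ⟨s, fun A hA => ?_⟩
  rw [mem_ult (htB hA)]
  exact hs ⟨A, htB hA⟩ hA

theorem ult_ult (hB : Alg B) {u : ↥B → Bool} (hu : u ∈ Sto B) : Ult B (ult u) where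
  sub := fun A hA => hA.1
  ne := by
    intro A hA
    obtain ⟨s, hs⟩ := ult_dense hu {A} (Set.finite_singleton A) (by
      rintro _ rfl
      exact hA.1)
    exact ⟨s, (hs A rfl).1 hA⟩
  inter := by
    intro A hA A' hA'
    have hAA := hB.inter A hA.1 A' hA'.1
    obtain ⟨s, hs⟩ := ult_dense hu {A, A', A ∩ A'} (by simp) (by
      rintro _ (rfl | rfl | rfl)
      · exact hA.1
      · exact hA'.1
      · exact hAA)
    rw [hs (A ∩ A') (by simp)]
    exact ⟨(hs A (by simp)).1 hA, (hs A' (by simp)).1 hA'⟩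
  up := by
    intro A hA A' hA' hAA
    obtain ⟨s, hs⟩ := ult_dense hu {A, A'} (by simp) (by
      rintro _ (rfl | rfl)
      · exact hA.1
      · exact hA')
    rw [hs A' (by simp)]
    exact hAA ((hs A (by simp)).1 hA)
  or := by
    intro A hA
    have hAc := hB.compl A hA
    obtain ⟨s, hs⟩ := ult_dense hu {A, Aᶜ} (by simp) (by
      rintro _ (rfl | rfl)
      · exact hA
      · exact hAc)
    rw [hs A (by simp), hs Aᶜ (by simp)]
    exact Classical.em (s ∈ A)

end stone

/-- **the theorem for superatomic algebras**: groups of germs at ultrafilters -/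
theorem stone {C : ∀ (G : Type) [Group G], Prop} (hC : ClosedE C) (P S : Type) [Group P]
    [MulAction P S] (hfaith : ∀ g : P, (∀ s : S, g • s = s) → g = 1)
    (B : Set (Set S)) (hB : Alg B) (hs : Sat B) (hi : Inv P B)
    (hgerm : ∀ U : Set (Set S), Ult B U → ∃ (Q : Type) (_ : Group Q) (ψ : ↥(Stb P B U hi) →* Q),
      C Q ∧ ∀ g : ↥(Stb P B U hi), ψ g = 1 ↔ ∃ A ∈ U, ∀ s ∈ A, (g : P) • s = s) : C P := by
  classical
  -- the action
  let act : MulAction P (↥B → Bool) :=
    { smul := fun g u => fun A => u ⟨{s | g • s ∈ (A : Set S)}, hi g A A.2⟩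
      one_smul := fun u => by
        funext A
        show u ⟨{s | (1 : P) • s ∈ (A : Set S)}, _⟩ = u A
        congr 1
        apply Subtype.ext
        ext s
        show (1 : P) • s ∈ (A : Set S) ↔ s ∈ (A : Set S)
        rw [one_smul]
      mul_smul := fun g h u => by
        funext A
        show u ⟨{s | (g * h) • s ∈ (A : Set S)}, _⟩ = u ⟨{s | g • h • s ∈ (A : Set S)}, _⟩
        congr 1
        apply Subtype.ext
        ext s
        show (g * h) • s ∈ (A : Set S) ↔ g • h • s ∈ (A : Set S)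
        rw [mul_smul] }
  have hact : ∀ (g : P) (u : ↥B → Bool) (A : ↥B),
      (g • u) A = u ⟨{s | g • s ∈ (A : Set S)}, hi g A A.2⟩ := fun g u A => rfl
  have hcont : ∀ g : P, Continuous (fun u : ↥B → Bool => g • u) := by
    intro g
    refine continuous_pi fun A => ?_
    exact continuous_apply _
  have hpt : ∀ (g : P) (s : S), g • pt B s = pt B (g • s) := by
    intro g s
    funext A
    rw [hact, Bool.eq_iff_iff, pt_iff, pt_iff]
    rfl
  have hSto : ∀ (g : P), ∀ u ∈ Sto B, g • u ∈ Sto B := by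
    intro g u hu
    refine map_mem_closure (hcont g) hu ?_
    rintro _ ⟨s, rfl⟩
    exact ⟨g • s, (hpt g s).symm⟩
  let act' : MulAction P ↥(Sto B) :=
    { smul := fun g u => ⟨g • (u : ↥B → Bool), hSto g u u.2⟩
      one_smul := fun u => Subtype.ext (one_smul P (u : ↥B → Bool))
      mul_smul := fun g h u => Subtype.ext (mul_smul g h (u : ↥B → Bool)) }
  have hact' : ∀ (g : P) (u : ↥(Sto B)), ((g • u : ↥(Sto B)) : ↥B → Bool) = g • (u : ↥B → Bool) :=
    fun g u => rfl
  have hcc : ContinuousConstSMul P ↥(Sto B) :=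
    ⟨fun g => Continuous.subtype_mk ((hcont g).comp continuous_subtype_val) _⟩
  have hcomp : CompactSpace ↥(Sto B) :=
    isCompact_iff_compactSpace.1 (isClosed_closure.isCompact)
  have hmem : ∀ (g : P) (u : ↥(Sto B)) (A : Set S), A ∈ B →
      (A ∈ ult ((g • u : ↥(Sto B)) : ↥B → Bool) ↔ {s | g • s ∈ A} ∈ ult (u : ↥B → Bool)) := by
    intro g u A hA
    rw [mem_ult hA, mem_ult (hi g A hA)]
    rfl
  have hinj : ∀ u v : ↥(Sto B), (∀ A ∈ B, A ∈ ult (u : ↥B → Bool) ↔ A ∈ ult (v : ↥B → Bool)) →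
      u = v := by
    intro u v h
    apply Subtype.ext
    funext A
    rw [Bool.eq_iff_iff, ← mem_ult A.2, ← mem_ult A.2]
    exact h A A.2
  -- the subgroups of germs
  obtain ⟨K, hK⟩ : ∃ K : ↥(Sto B) → Subgroup P, ∀ u g, g ∈ K u ↔
      ∃ A ∈ ult (u : ↥B → Bool), ∀ s ∈ A, g • s = s := by
    refine ⟨fun u =>
      { carrier := {g | ∃ A ∈ ult (u : ↥B → Bool), ∀ s ∈ A, g • s = s}
        one_mem' := by
          have hU := ult_ult hB u.2
          rcases hU.or _ hB.univ with h | h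
          · exact ⟨Set.univ, h, fun s _ => one_smul P s⟩
          · exact ⟨_, h, fun s _ => one_smul P s⟩
        mul_mem' := by
          rintro g h ⟨A, hA, hA1⟩ ⟨A', hA', hA1'⟩
          refine ⟨A ∩ A', (ult_ult hB u.2).inter _ hA _ hA', fun s hs => ?_⟩
          rw [mul_smul, hA1' s hs.2, hA1 s hs.1]
        inv_mem' := by
          rintro g ⟨A, hA, hA1⟩
          refine ⟨A, hA, fun s hs => ?_⟩
          rw [inv_smul_eq_iff, hA1 s hs] }, fun u g => Iff.rfl⟩
  have hIso : Iso K := by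
    refine ⟨?_, ?_, ?_⟩
    · intro u g hg
      obtain ⟨A, hA, hA1⟩ := (hK u g).1 hg
      rw [MulAction.mem_stabilizer_iff]
      apply hinj
      intro A' hA'
      rw [hmem g u A' hA']
      have hU := ult_ult hB u.2
      constructor
      · intro h
        refine hU.up _ (hU.inter _ hA _ h) _ hA' ?_
        rintro s ⟨hs1, hs2⟩
        have h2 : g • s ∈ A' := hs2
        rwa [hA1 s hs1] at h2
      · intro h
        refine hU.up _ (hU.inter _ hA _ h) _ (hi g A' hA') ?_
        rintro s ⟨hs1, hs2⟩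
        show g • s ∈ A'
        rwa [hA1 s hs1]
    · intro u g h hg
      obtain ⟨A, hA, hA1⟩ := (hK u g).1 hg
      rw [hK]
      refine ⟨{s | h⁻¹ • s ∈ A}, ?_, ?_⟩
      · rw [hmem h u _ (hi h⁻¹ A hA.1)]
        convert hA using 1
        ext s
        show h⁻¹ • h • s ∈ A ↔ s ∈ A
        rw [inv_smul_smul]
      · intro s hs
        rw [mul_smul, mul_smul, hA1 _ hs, smul_inv_smul]
    · intro g
      have h1 : {u : ↥(Sto B) | g ∈ K u} =
          ⋃ A ∈ {A : ↥B | ∀ s ∈ (A : Set S), g • s = s}, {u : ↥(Sto B) | (u : ↥B → Bool) A = true} := by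
        ext u
        rw [Set.mem_iUnion₂]
        constructor
        · intro hu
          obtain ⟨A, hA, hA1⟩ := (hK u g).1 hu
          exact ⟨⟨A, hA.1⟩, hA1, (mem_ult hA.1).1 hA⟩
        · rintro ⟨A, hA1, hA2⟩
          exact (hK u g).2 ⟨A, (mem_ult A.2).2 hA2, hA1⟩
      rw [h1]
      refine isOpen_biUnion fun A _ => ?_
      have h2 : {u : ↥(Sto B) | (u : ↥B → Bool) A = true} =
          (fun u : ↥(Sto B) => (u : ↥B → Bool) A) ⁻¹' {true} := rfl
      rw [h2]
      exact (isOpen_discrete _).preimage ((continuous_apply A).comp continuous_subtype_val)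
  refine scattered hC P ↥(Sto B) K hIso ?_ ∅ isClosed_empty (fun g x hx => hx) ?_ ?_
    (Multiplicative ℤ) 1 hC.base.int (fun g _ x hx => absurd hx (Set.notMem_empty x))
  · -- faithful
    intro g hg
    apply hfaith
    intro s
    have h1 := hg ⟨pt B s, subset_closure ⟨s, rfl⟩⟩
    obtain ⟨A, hA, hA1⟩ := (hK _ g).1 h1
    exact hA1 s ((pt_iff B s ⟨A, hA.1⟩).1 ((mem_ult hA.1).1 hA))
  · -- scattered
    intro Y hY _
    obtain ⟨y0, hy0⟩ := hY
    obtain ⟨A, hA, hAI, hAs⟩ := hs {A | A ∈ B ∧ ∀ y ∈ Y, A ∉ ult (y : ↥B → Bool)}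
      (fun A hA => hA.1)
      ⟨hB.empty, fun y _ h => Set.not_nonempty_empty ((ult_ult hB y.2).ne _ h)⟩
      (fun A hA A' hA' hAA => ⟨hA', fun y hy h => hA.2 y hy ((ult_ult hB y.2).up _ h _ hA.1 hAA)⟩)
      (fun A hA A' hA' => ⟨hB.union hA.1 hA'.1, fun y hy h => by
        have hU := ult_ult hB y.2
        have h1 : Aᶜ ∈ ult (y : ↥B → Bool) := (hU.or A hA.1).resolve_left (hA.2 y hy)
        have h2 : A'ᶜ ∈ ult (y : ↥B → Bool) := (hU.or A' hA'.1).resolve_left (hA'.2 y hy)
        obtain ⟨s, hs1, hs2, hs3⟩ := hU.ne _ (hU.inter _ h _ (hU.inter _ h1 _ h2))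
        rcases hs1 with h | h
        · exact hs2 h
        · exact hs3 h⟩)
      (fun h => by
        have hU := ult_ult hB y0.2
        rcases hU.or _ hB.univ with h1 | h1
        · exact h.2 y0 hy0 h1
        · obtain ⟨s, hs⟩ := hU.ne _ h1
          exact hs (Set.mem_univ s))
    have hex : ∃ y ∈ Y, A ∈ ult (y : ↥B → Bool) := by
      by_contra h
      push Not at h
      exact hAI ⟨hA, h⟩
    obtain ⟨y, hy, hyA⟩ := hex
    refine ⟨y, hy, (fun u : ↥(Sto B) => (u : ↥B → Bool) ⟨A, hA⟩) ⁻¹' {true},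
      (isOpen_discrete _).preimage ((continuous_apply _).comp continuous_subtype_val),
      (mem_ult hA).1 hyA, ?_⟩
    rintro z ⟨hz1, hz2⟩
    have hzA : A ∈ ult (z : ↥B → Bool) := (mem_ult hA).2 hz1
    show z = y
    apply hinj
    intro A' hA'
    have hUz := ult_ult hB z.2
    have hUy := ult_ult hB y.2
    rcases hAs A' hA' with h | h
    · constructor
      · intro h1
        exact absurd (hUz.inter _ hzA _ h1) (h.2 z hz2)
      · intro h1
        exact absurd (hUy.inter _ hyA _ h1) (h.2 y hy)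
    · constructor
      · intro _
        rcases hUy.or A' hA' with h1 | h1
        · exact h1
        · exact absurd (hUy.inter _ hyA _ h1) (h.2 y hy)
      · intro _
        rcases hUz.or A' hA' with h1 | h1
        · exact h1
        · exact absurd (hUz.inter _ hzA _ h1) (h.2 z hz2)
  · -- groups of germs
    intro u _
    obtain ⟨Q, _, ψ, hQ, hψ⟩ := hgerm (ult (u : ↥B → Bool)) (ult_ult hB u.2)
    have hle : MulAction.stabilizer P u ≤ Stb P B (ult (u : ↥B → Bool)) hi := by
      intro g hg A hA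
      have h1 := MulAction.mem_stabilizer_iff.1 hg
      rw [← hmem g u A hA, h1]
    refine ⟨Q, inferInstance, ψ.comp (Subgroup.inclusion hle), hQ, fun g => ?_⟩
    rw [hK]
    exact hψ _

end Q27.SCT
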