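import Pool.Agent.Q27.SCT.Rep

/-!
# Groups acting on compact spaces with a continuous family of isotropy subgroups: the derived set
-/

set_option autoImplicit false

namespace Q27.SCT

open Pool.Agent.Y110.FJ
open Pool.Agent.Y462.SS (Closed Wr)
open Q30.FJ Topology Filter

section

variable {P X : Type} [Group P]

/-- the elements which are trivial at each point of `E` -/
def Tri (K : X → Subgroup P) (E : Set X) : Subgroup P where
  carrier := {g | ∀ x ∈ E, g ∈ K x}
  one_mem' := fun x _ => (K x).one_mem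
  mul_mem' {g h} hg hh x hx := (K x).mul_mem (hg x hx) (hh x hx)
  inv_mem' {g} hg x hx := (K x).inv_mem (hg x hx)

theorem Tri_anti (K : X → Subgroup P) {E E' : Set X} (h : E ⊆ E') : Tri K E' ≤ Tri K E :=
  fun _ hg x hx => hg x (h hx)

variable [TopologicalSpace X] [MulAction P X]

/-- a family of subgroups of the stabilizers which is invariant under conjugation; each element is
trivial at the points of an open set -/
structure Iso (K : X → Subgroup P) : Prop where
  le : ∀ x, K x ≤ MulAction.stabilizer P x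
  conj : ∀ (x : X) (g h : P), g ∈ K x → h * g * h⁻¹ ∈ K (h • x)
  opn : ∀ g : P, IsOpen {x | g ∈ K x}

variable {K : X → Subgroup P}

theorem Iso.normal (hK : Iso K) (E : Set X) (hE : ∀ (g : P), ∀ x ∈ E, g • x ∈ E) :
    (Tri K E).Normal := by
  constructor
  intro g hg h x hx
  have h1 := hK.conj (h⁻¹ • x) g h (hg _ (hE h⁻¹ x hx))
  rwa [smul_inv_smul] at h1

theorem Iso.closed (hK : Iso K) (g : P) : IsClosed {x | g ∉ K x} := by
  rw [← isOpen_compl_iff]
  convert hK.opn g using 1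
  ext x
  rw [Set.mem_compl_iff, Set.mem_ofPred_eq, not_not]
  rfl

/-- the points of the relatively discrete set near which an element is nontrivial -/
theorem Iso.finite (hK : Iso K) [CompactSpace X] {E Ω : Set X} (hE : IsClosed E)
    (hΩ : ∀ x ∈ Ω, ∃ U : Set X, IsOpen U ∧ x ∈ U ∧ U ∩ E ⊆ {x}) (g : P)
    (hg : g ∈ Tri K (E \ Ω)) : (E ∩ {x | g ∉ K x}).Finite := by
  have hc : IsCompact (E ∩ {x | g ∉ K x}) := (hE.inter (hK.closed g)).isCompact
  have hsub : ∀ x ∈ E ∩ {x | g ∉ K x}, x ∈ Ω := by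
    rintro x ⟨hx1, hx2⟩
    by_contra hx3
    exact hx2 (hg x ⟨hx1, hx3⟩)
  choose! U hU1 hU2 hU3 using hΩ
  obtain ⟨t, ht1, ht⟩ := hc.elim_nhds_subcover U
    (fun x hx => (hU1 x (hsub x hx)).mem_nhds (hU2 x (hsub x hx)))
  refine t.finite_toSet.subset ?_
  intro x hx
  obtain ⟨z, hz, hxz⟩ := Set.mem_iUnion₂.1 (ht hx)
  have h1 : x = z := hU3 z (hsub z (ht1 z hz)) ⟨hxz, hx.1⟩
  rw [h1]
  exact hz

/-- **the successor step**: the isolated points outside `F` are removed -/
theorem top_step {C : ∀ (G : Type) [Group G], Prop} (hC : ClosedE C) [CompactSpace X]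
    (hK : Iso K) (L : Subgroup P) [L.Normal] (E Ω : Set X) (hE : IsClosed E)
    (hEi : ∀ (g : P), ∀ x ∈ E, g • x ∈ E) (hΩE : Ω ⊆ E) (hΩi : ∀ (g : P), ∀ x ∈ Ω, g • x ∈ Ω)
    (hΩ : ∀ x ∈ Ω, ∃ U : Set X, IsOpen U ∧ x ∈ U ∧ U ∩ E ⊆ {x})
    (hgerm : ∀ x ∈ Ω, ∃ (Q : Type) (_ : Group Q) (φ : MulAction.stabilizer P x →* Q), C Q ∧
      ∀ g : MulAction.stabilizer P x, φ g = 1 ↔ (g : P) ∈ K x)
    (hT : Transp C (L ⊓ Tri K E)) : Transp C (L ⊓ Tri K (E \ Ω)) := by
  let act : MulAction P ↥Ω :=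
    { smul := fun g x => ⟨g • (x : X), hΩi g x x.2⟩
      one_smul := fun x => Subtype.ext (one_smul P (x : X))
      mul_smul := fun g h x => Subtype.ext (mul_smul g h (x : X)) }
  have hsm : ∀ (g : P) (x : ↥Ω), ((g • x : ↥Ω) : X) = g • (x : X) := fun g x => rfl
  obtain ⟨H, _, ρ, hH, hρp, hρs⟩ := mono_rep (P := P) hC.base ↥Ω
    (fun x g => g ∈ K (x : X)) (fun x g h hg => hK.conj (x : X) g h hg) (by
      intro x
      obtain ⟨Q, _, φ, hQ, hφ⟩ := hgerm x x.2
      have hle : MulAction.stabilizer P x ≤ MulAction.stabilizer P (x : X) := by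
        intro g hg
        have h1 := MulAction.mem_stabilizer_iff.1 hg
        exact MulAction.mem_stabilizer_iff.2 (congrArg Subtype.val h1)
      exact ⟨Q, _, φ.comp (Subgroup.inclusion hle), hQ, fun g => hφ _⟩)
  have hnE := hK.normal E hEi
  have hLn : (L ⊓ Tri K E).Normal := inferInstance
  have htriv : ∀ (g : P) (x : ↥Ω), x ∈ wsupp (ρ g) ↔ g ∉ K (x : X) := by
    intro g x
    constructor
    · rintro hx h1
      have h2 : g • x = x := Subtype.ext (MulAction.mem_stabilizer_iff.1 (hK.le x h1))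
      rcases hx with h3 | h3
      · exact h3 ((hρs g x h2).2 h1)
      · exact h3 (by rw [hρp, h2])
    · intro h1
      by_contra hx
      obtain ⟨h3, h4⟩ := not_wsupp hx
      rw [hρp] at h4
      exact h1 ((hρs g x h4).1 h3)
  refine transp_step hC hT (inf_le_inf_left L (Tri_anti K Set.sdiff_subset)) ↥Ω H hH ρ ?_ ?_ ?_
  · rintro g ⟨-, hg⟩
    have h1 : ∀ x, x ∉ wsupp (ρ g) := fun x hx => (htriv g x).1 hx (hg x (hΩE x.2))
    apply Wr.ext
    · funext x
      exact (not_wsupp (h1 x)).1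
    · ext x
      rw [(not_wsupp (h1 x)).2]
      rfl
  · rintro g ⟨hgL, hg⟩ hg1
    refine ⟨hgL, fun x hx => ?_⟩
    by_cases hxΩ : x ∈ Ω
    · by_contra h1
      have h2 := (htriv g ⟨x, hxΩ⟩).2 h1
      rw [hg1, wsupp_one] at h2
      exact h2
    · exact hg x ⟨hx, hxΩ⟩
  · rintro g ⟨-, hg⟩
    have h1 := hK.finite hE hΩ g hg
    refine (h1.preimage (f := ((↑) : ↥Ω → X)) Subtype.val_injective.injOn).subset ?_
    intro x hx
    exact ⟨hΩE x.2, (htriv g x).1 hx⟩

end

end Q27.SCT
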