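import Pool.Agent.Q30.FJ.Mono

/-!
# Transparent normal subgroups

A normal subgroup `M` of `P` is transparent for the class `C` if every subgroup of `P` whose image in
the quotient by `M` is in `C` is itself in `C`.
-/

set_option autoImplicit false

namespace Q27.SCT

open Pool.Agent.Y110.FJ
open Pool.Agent.Y462.SS (Closed Wr)
open Q30.FJ

/-- every group `K` with an injection into `P` and a homomorphism to a group in `C` whose kernel is
the preimage of `M` is in `C` -/
def Transp (C : ∀ (G : Type) [Group G], Prop) {P : Type} [Group P] (M : Subgroup P) : Prop :=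
  ∀ (K : Type) [Group K] (f : K →* P), Function.Injective f → ∀ (Q : Type) [Group Q] (π : K →* Q),
    C Q → (∀ x, π x = 1 ↔ f x ∈ M) → C K

variable {C : ∀ (G : Type) [Group G], Prop} {P : Type} [Group P]

theorem transp_bot (hC : ClosedE C) : Transp C (⊥ : Subgroup P) := by
  intro K _ f hf Q _ π hQ h
  refine hC.base.of_injective K Q π ?_ hQ
  rw [injective_iff_map_eq_one]
  intro x hx
  have h1 := (h x).1 hx
  rw [Subgroup.mem_bot] at h1
  exact hf (by rw [h1, map_one])

/-- **the successor step** -/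
theorem transp_step (hC : ClosedE C) {M M' : Subgroup P} [M.Normal] (hM : Transp C M)
    (hle : M ≤ M') (X H : Type) [Group H] (hH : C H) (ρ : P →* Wr X H)
    (h1 : ∀ g ∈ M, ρ g = 1) (h2 : ∀ g ∈ M', ρ g = 1 → g ∈ M)
    (h3 : ∀ g ∈ M', (wsupp (ρ g)).Finite) : Transp C M' := by
  intro K _ f hf Q _ π hQ h
  have hRn : (M.comap f).Normal := inferInstance
  refine hM K f hf (K ⧸ M.comap f) (QuotientGroup.mk' (M.comap f)) ?_ (fun x => ?_)
  swap
  · exact QuotientGroup.eq_one_iff x
  have hRle : ∀ x ∈ M.comap f, π x = 1 := fun x hx => (h x).2 (hle hx)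
  obtain ⟨π', hπ'⟩ : ∃ π' : (K ⧸ M.comap f) →* Q, π' = QuotientGroup.lift (M.comap f) π hRle :=
    ⟨_, rfl⟩
  have hπx : ∀ x : K, π' (x : K ⧸ M.comap f) = π x := by
    intro x
    rw [hπ']
    rfl
  have hρle : ∀ x ∈ M.comap f, (ρ.comp f) x = 1 := fun x hx => h1 _ hx
  obtain ⟨ρ', hρ'⟩ : ∃ ρ' : (K ⧸ M.comap f) →* Wr X H,
      ρ' = QuotientGroup.lift (M.comap f) (ρ.comp f) hρle := ⟨_, rfl⟩
  have hρx : ∀ x : K, ρ' (x : K ⧸ M.comap f) = ρ (f x) := by
    intro x
    rw [hρ']
    rfl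
  refine mono_kernel hC X H hH (K ⧸ M.comap f) π'.ker ?_ ρ' ?_ ?_
  · exact hC.base.of_injective _ Q (QuotientGroup.kerLift π') (QuotientGroup.kerLift_injective π') hQ
  · intro g hg hg1
    induction g using QuotientGroup.induction_on with
    | H x =>
      rw [MonoidHom.mem_ker, hπx] at hg
      rw [hρx] at hg1
      exact (QuotientGroup.eq_one_iff x).2 (h2 _ ((h x).1 hg) hg1)
  · intro g hg
    induction g using QuotientGroup.induction_on with
    | H x =>
      rw [MonoidHom.mem_ker, hπx] at hg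
      rw [hρx]
      exact h3 _ ((h x).1 hg)

/-- finitely generated groups with cyclic image: the kernel is in one of the subgroups of a directed
union -/
theorem cyc_case (M : Subgroup P)
    (hdir : ∀ s : Finset P, (∀ x ∈ s, x ∈ M) →
      ∃ N : Subgroup P, N.Normal ∧ N ≤ M ∧ Transp C N ∧ ∀ x ∈ s, x ∈ N)
    (K : Type) [Group K] (f : K →* P) (hf : Function.Injective f) (Q : Type) [Group Q]
    (π : K →* Q) (hQ : C Q) (h : ∀ x, π x = 1 ↔ f x ∈ M) (hfg : Group.FG K) (t : K)
    (ht : ∀ x, π x ∈ Subgroup.zpowers (π t)) : C K := by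
  classical
  obtain ⟨S, hS⟩ := hfg.out
  have ha : ∀ x : K, ∃ a : ℤ, π t ^ a = π x := fun x => ht x
  choose a ha using ha
  obtain ⟨N, hN, hNM, hNT, hNs⟩ := hdir
    (insert (f (t ^ orderOf (π t))) (S.image (fun x => f (t ^ (-(a x)) * x)))) (by
      intro y hy
      rw [Finset.mem_insert, Finset.mem_image] at hy
      rcases hy with rfl | ⟨x, -, rfl⟩
      · rw [← h, map_pow, pow_orderOf_eq_one]
      · rw [← h, map_mul, map_zpow, ← ha x, ← zpow_add, neg_add_cancel, zpow_zero])
  refine hNT K f hf Q π hQ (fun x => ⟨fun hx => ?_, fun hx => (h x).2 (hNM hx)⟩)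
  have hRn : (N.comap f).Normal := inferInstance
  have htop : ∀ y : K, y ∈ Subgroup.zpowers t ⊔ N.comap f := by
    intro y
    have h1 : Subgroup.closure (S : Set K) ≤ Subgroup.zpowers t ⊔ N.comap f := by
      rw [Subgroup.closure_le]
      intro z hz
      have h2 : t ^ (-(a z)) * z ∈ N.comap f := hNs _ (by
        rw [Finset.mem_insert, Finset.mem_image]
        exact Or.inr ⟨z, hz, rfl⟩)
      have h3 : z = t ^ (a z) * (t ^ (-(a z)) * z) := by
        rw [← mul_assoc, ← zpow_add, add_neg_cancel, zpow_zero, one_mul]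
      show z ∈ Subgroup.zpowers t ⊔ N.comap f
      rw [h3]
      exact Subgroup.mul_mem_sup ⟨a z, rfl⟩ h2
    rw [hS] at h1
    exact h1 (Subgroup.mem_top y)
  have htx : x ∈ ((Subgroup.zpowers t ⊔ N.comap f : Subgroup K) : Set K) := htop x
  rw [Subgroup.mul_normal] at htx
  obtain ⟨u, hu, v, hv, huv⟩ := htx
  obtain ⟨b, rfl⟩ := hu
  have h4 : π v = 1 := (h v).2 (hNM hv)
  have h5 : π t ^ b = 1 := by
    have h6 : π (t ^ b * v) = 1 := by rw [show t ^ b * v = x from huv]; exact hx
    rwa [map_mul, h4, mul_one, map_zpow] at h6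
  obtain ⟨q, hq⟩ := orderOf_dvd_iff_zpow_eq_one.2 h5
  have h7 : f (t ^ b) ∈ N := by
    rw [hq, zpow_mul, zpow_natCast, map_zpow]
    exact Subgroup.zpow_mem _ (hNs _ (Finset.mem_insert_self _ _)) _
  rw [← show t ^ b * v = x from huv, map_mul]
  exact Subgroup.mul_mem _ h7 hv

/-- **directed unions of transparent subgroups are transparent** -/
theorem transp_union (hC : ClosedE C) (M : Subgroup P)
    (hdir : ∀ s : Finset P, (∀ x ∈ s, x ∈ M) →
      ∃ N : Subgroup P, N.Normal ∧ N ≤ M ∧ Transp C N ∧ ∀ x ∈ s, x ∈ N) : Transp C M := by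
  intro K _ f hf Q _ π hQ h
  have key : ∀ g : K, C ↥(π.ker ⊔ Subgroup.zpowers g) := by
    intro g
    refine of_fg hC.base _ fun s => ?_
    obtain ⟨L, hL⟩ : ∃ L : Subgroup ↥(π.ker ⊔ Subgroup.zpowers g),
        L = Subgroup.closure (s : Set ↥(π.ker ⊔ Subgroup.zpowers g)) := ⟨_, rfl⟩
    rw [← hL]
    have hLfg : Group.FG L := by
      rw [Group.fg_iff_subgroup_fg]
      exact ⟨s, hL.symm⟩
    obtain ⟨j, hj⟩ : ∃ j : L →* K,
        j = ((π.ker ⊔ Subgroup.zpowers g).subtype).comp L.subtype := ⟨_, rfl⟩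
    have hji : Function.Injective j := by
      rw [hj]
      exact (Subgroup.subtype_injective _).comp (Subgroup.subtype_injective _)
    have hjz : ∀ x, π (j x) ∈ Subgroup.zpowers (π g) := by
      intro x
      have h1 : j x ∈ ((π.ker ⊔ Subgroup.zpowers g : Subgroup K) : Set K) := by
        rw [hj]
        exact x.1.2
      rw [Subgroup.normal_mul] at h1
      obtain ⟨u, hu, v, hv, huv⟩ := h1
      obtain ⟨b, rfl⟩ := hv
      rw [← huv, map_mul, (MonoidHom.mem_ker).1 hu, one_mul]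
      exact ⟨b, by simp⟩
    -- a generator of the image
    obtain ⟨t, ht⟩ : ∃ t : L, ∀ x : L, (π.comp j) x ∈ Subgroup.zpowers ((π.comp j) t) := by
      obtain ⟨R, hR⟩ : ∃ R : Subgroup ↥(Subgroup.zpowers (π g)),
          R = ((π.comp j).range).subgroupOf (Subgroup.zpowers (π g)) := ⟨_, rfl⟩
      have hcy : IsCyclic R := inferInstance
      obtain ⟨⟨⟨r, hr1⟩, hr2⟩, hr3⟩ := hcy.exists_generator
      rw [hR, Subgroup.mem_subgroupOf] at hr2
      obtain ⟨t, ht⟩ := hr2
      refine ⟨t, fun x => ?_⟩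
      obtain ⟨b, hb⟩ := hr3 ⟨⟨(π.comp j) x, hjz x⟩, by
        rw [hR, Subgroup.mem_subgroupOf]
        exact ⟨x, rfl⟩⟩
      refine ⟨b, ?_⟩
      have h2 := congrArg (fun z : R => ((z : ↥(Subgroup.zpowers (π g))) : Q)) hb
      have h3 : r ^ b = (π.comp j) x := by
        simpa using h2
      show (π.comp j) t ^ b = _
      rw [show (π.comp j) t = r from ht, h3]
    exact cyc_case M hdir L (f.comp j) (hf.comp hji) Q (π.comp j) hQ (fun x => h (j x)) hLfg t ht
  refine Pool.Agent.Y529.FJ.t_ext C hC K π.ker ?_ ?_ (fun g _ => key g)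
  · exact hC.base.of_injective _ _ (Subgroup.inclusion (le_sup_left : π.ker ≤ π.ker ⊔ Subgroup.zpowers 1))
      (Subgroup.inclusion_injective _) (key 1)
  · exact hC.base.of_injective _ Q (QuotientGroup.kerLift π) (QuotientGroup.kerLift_injective π) hQ

end Q27.SCT
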