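import Pool.Agent.Q27.SCT.Abl

/-!
# Examples of scattered sets; semilinear pieces
-/

set_option autoImplicit false

namespace Q27.SCT

open Pool.Agent.Y110.FJ
open Pool.Agent.Y462.SS (Closed Wr)
open Q30.FJ

section gen

variable {S : Type}

theorem gen_gen (G G' : Set (Set S)) : gen (gen G ∪ gen G') = gen (G ∪ G') := by
  apply Set.Subset.antisymm
  · refine gen_le (gen_alg _) (Set.union_subset ?_ ?_)
    · exact gen_le (gen_alg _) (Set.subset_union_left.trans (sub_gen _))
    · exact gen_le (gen_alg _) (Set.subset_union_right.trans (sub_gen _))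
  · refine gen_le (gen_alg _) (Set.union_subset ?_ ?_)
    · exact (sub_gen G).trans (Set.subset_union_left.trans (sub_gen _))
    · exact (sub_gen G').trans (Set.subset_union_right.trans (sub_gen _))

theorem sat_gen_union {G G' : Set (Set S)} (h : Sat (gen G)) (h' : Sat (gen G')) :
    Sat (gen (G ∪ G')) := by
  rw [← gen_gen]
  exact sat_sup (gen_alg _) (gen_alg _) h h'

theorem sat_gen_empty : Sat (gen (∅ : Set (Set S))) := by
  intro I hI h0 h1 h2 h3
  refine ⟨Set.univ, Gen.univ, h3, ?_⟩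
  exact split_gen (gen_alg _) (sub_gen _) _ Gen.univ h0 h1 h2
    (fun A hA => absurd hA (Set.notMem_empty A))

/-- finite unions of generating sets -/
theorem sat_gen_biUnion {ι : Type} {t : Set ι} (ht : t.Finite) (G : ι → Set (Set S))
    (h : ∀ i ∈ t, Sat (gen (G i))) : Sat (gen (⋃ i ∈ t, G i)) := by
  induction t, ht using Set.Finite.induction_on with
  | empty =>
    rw [Set.biUnion_empty]
    exact sat_gen_empty
  | @insert a s ha hs ih =>
    rw [Set.biUnion_insert]
    exact sat_gen_union (h a (Set.mem_insert a s)) (ih fun i hi => h i (Set.mem_insert_of_mem a hi))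

theorem sat_gen_singleton (A : Set S) : Sat (gen {A}) := by
  intro I hI h0 h1 h2 h3
  have hA : A ∈ gen {A} := sub_gen _ rfl
  by_cases hAI : A ∈ I
  · refine ⟨Aᶜ, (gen_alg _).compl _ hA, fun h => h3 ?_, ?_⟩
    · rw [← Set.union_compl_self A]
      exact h2 _ hAI _ h
    · refine split_gen (gen_alg _) (sub_gen _) _ ((gen_alg _).compl _ hA) h0 h1 h2 ?_
      rintro _ rfl
      left
      rw [Set.compl_inter_self]
      exact h0
  · refine ⟨A, hA, hAI, ?_⟩
    refine split_gen (gen_alg _) (sub_gen _) _ hA h0 h1 h2 ?_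
    rintro _ rfl
    right
    rw [Set.sdiff_self]
    exact h0

theorem sat_gen_finite {G : Set (Set S)} (hG : G.Finite) : Sat (gen G) := by
  have h1 : G = ⋃ A ∈ G, {A} := by
    rw [Set.biUnion_of_singleton]
  rw [h1]
  exact sat_gen_biUnion hG (fun A => {A}) fun A _ => sat_gen_singleton A

/-- the algebra generated by the level sets of a map to the integers -/
theorem sat_half (ℓ : S → ℤ) : Sat (gen {A | ∃ a : ℤ, A = {s | a ≤ ℓ s}}) := by
  intro I hI h0 h1 h2 h3
  have hg := gen_alg {A : Set S | ∃ a : ℤ, A = {s | a ≤ ℓ s}}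
  have hH : ∀ a : ℤ, {s | a ≤ ℓ s} ∈ gen {A | ∃ a : ℤ, A = {s | a ≤ ℓ s}} :=
    fun a => sub_gen _ ⟨a, rfl⟩
  have hL : ∀ a : ℤ, {s | ℓ s = a} ∈ gen {A | ∃ a : ℤ, A = {s | a ≤ ℓ s}} := by
    intro a
    have h4 : {s | ℓ s = a} = {s | a ≤ ℓ s} \ {s | a + 1 ≤ ℓ s} := by
      ext s
      simp only [Set.mem_ofPred_eq, Set.mem_sdiff]
      omega
    rw [h4]
    exact hg.diff (hH a) (hH (a + 1))
  by_cases hex : ∃ a : ℤ, {s | ℓ s = a} ∉ I
  · obtain ⟨a, ha⟩ := hex
    refine ⟨_, hL a, ha, split_gen hg (sub_gen _) _ (hL a) h0 h1 h2 ?_⟩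
    rintro _ ⟨b, rfl⟩
    by_cases hb : b ≤ a
    · right
      convert h0 using 1
      ext s
      simp only [Set.mem_ofPred_eq, Set.mem_sdiff, Set.mem_empty_iff_false, iff_false]
      omega
    · left
      convert h0 using 1
      ext s
      simp only [Set.mem_ofPred_eq, Set.mem_inter_iff, Set.mem_empty_iff_false, iff_false]
      omega
  · push Not at hex
    have hint : ∀ (a : ℤ) (n : ℕ), {s | a ≤ ℓ s ∧ ℓ s < a + n} ∈ I := by
      intro a n
      induction n with
      | zero =>
        convert h0 using 1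
        ext s
        simp only [Set.mem_ofPred_eq, Set.mem_empty_iff_false, iff_false]
        omega
      | succ n ih =>
        convert h2 _ ih _ (hex (a + n)) using 1
        ext s
        simp only [Set.mem_ofPred_eq, Set.mem_union]
        push_cast
        omega
    have hint' : ∀ a b : ℤ, {s | a ≤ ℓ s ∧ ℓ s < b} ∈ I := by
      intro a b
      by_cases hab : a ≤ b
      · obtain ⟨n, hn⟩ := Int.eq_ofNat_of_zero_le (sub_nonneg.2 hab)
        have h4 := hint a n
        rwa [show a + (n : ℤ) = b by omega] at h4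
      · convert h0 using 1
        ext s
        simp only [Set.mem_ofPred_eq, Set.mem_empty_iff_false, iff_false]
        omega
    by_cases hz : {s | (0 : ℤ) ≤ ℓ s} ∈ I
    · refine ⟨_, hg.compl _ (hH 0), fun h => h3 ?_, split_gen hg (sub_gen _) _
        (hg.compl _ (hH 0)) h0 h1 h2 ?_⟩
      · rw [← Set.union_compl_self {s | (0 : ℤ) ≤ ℓ s}]
        exact h2 _ hz _ h
      · rintro _ ⟨b, rfl⟩
        left
        convert hint' b 0 using 1
        ext s
        simp only [Set.mem_ofPred_eq, Set.mem_inter_iff, Set.mem_compl_iff]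
        omega
    · refine ⟨_, hH 0, hz, split_gen hg (sub_gen _) _ (hH 0) h0 h1 h2 ?_⟩
      rintro _ ⟨b, rfl⟩
      right
      convert hint' 0 b using 1
      ext s
      simp only [Set.mem_ofPred_eq, Set.mem_sdiff]
      omega

end gen

section ex

variable {Γ S : Type} [Group Γ] [MulAction Γ S]

theorem Scat.compl {A : Set S} (h : Scat Γ A) : Scat Γ Aᶜ := by
  obtain ⟨B, hB, hA⟩ := h
  exact ⟨B, hB, hB.alg.compl A hA⟩

theorem Scat.inter {A A' : Set S} (h : Scat Γ A) (h' : Scat Γ A') : Scat Γ (A ∩ A') := by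
  obtain ⟨B, hB, hA⟩ := h
  obtain ⟨B', hB', hA'⟩ := h'
  exact ⟨_, hB.sup hB', (gen_alg _).inter _ (sub_gen _ (Or.inl hA)) _ (sub_gen _ (Or.inr hA'))⟩

theorem scat_alg : Alg {A : Set S | Scat Γ A} where
  univ := ⟨_, isa_bot, Or.inr rfl⟩
  compl _ hA := Scat.compl hA
  inter _ hA _ hA' := Scat.inter hA hA'

/-- finite sets are scattered -/
theorem scat_of_finite {A : Set S} (hA : A.Finite) : Scat Γ A := by
  refine ⟨gen {A | ∃ s : S, A = {s}}, ⟨gen_alg _, ?_, inv_gen ?_⟩, ?_⟩
  · intro I hI h0 h1 h2 h3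
    have hg := gen_alg {A : Set S | ∃ s : S, A = {s}}
    by_cases hex : ∃ s : S, {s} ∉ I
    · obtain ⟨s, hs⟩ := hex
      have hsg : {s} ∈ gen {A : Set S | ∃ s : S, A = {s}} := sub_gen _ ⟨s, rfl⟩
      refine ⟨{s}, hsg, hs, split_gen hg (sub_gen _) _ hsg h0 h1 h2 ?_⟩
      rintro _ ⟨s', rfl⟩
      by_cases hss : s = s'
      · right
        rw [hss, Set.sdiff_self]
        exact h0
      · left
        convert h0 using 1
        ext x
        simp only [Set.mem_inter_iff, Set.mem_singleton_iff, Set.mem_empty_iff_false, iff_false]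
        rintro ⟨rfl, h⟩
        exact hss h
    · push Not at hex
      refine ⟨Set.univ, hg.univ, h3, split_gen hg (sub_gen _) _ hg.univ h0 h1 h2 ?_⟩
      rintro _ ⟨s, rfl⟩
      left
      rw [Set.univ_inter]
      exact hex s
  · rintro γ _ ⟨s, rfl⟩
    apply sub_gen
    refine ⟨γ⁻¹ • s, ?_⟩
    ext x
    show γ • x = s ↔ x = γ⁻¹ • s
    rw [eq_inv_smul_iff]
  · have h1 : A = ⋃ s ∈ A, {s} := by rw [Set.biUnion_of_singleton]
    rw [h1]
    exact (gen_alg _).biUnion hA _ fun s _ => sub_gen _ ⟨s, rfl⟩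

/-- sets which are changed by each translation only in a set of an invariant superatomic algebra -/
theorem scat_step {B : Set (Set S)} (hB : ISA Γ B) {A : Set S}
    (hA : ∀ γ : Γ, symmDiff A {s | γ • s ∈ A} ∈ B) : Scat Γ A := by
  have hg := gen_alg (B ∪ gen {A})
  have hAg : A ∈ gen (B ∪ gen {A}) := sub_gen _ (Or.inr (sub_gen _ rfl))
  refine ⟨gen (B ∪ gen {A}), ⟨hg, sat_sup hB.alg (gen_alg _) hB.sat (sat_gen_singleton A),
    inv_gen ?_⟩, hAg⟩
  rintro γ A' (hA' | hA')
  · exact sub_gen _ (Or.inl (hB.inv γ A' hA'))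
  · induction hA' with
    | base A' hA' =>
      rw [show A' = A from hA']
      have h1 := hA γ
      have h2 : {s | γ • s ∈ A} = symmDiff A (symmDiff A {s | γ • s ∈ A}) := by
        rw [symmDiff_symmDiff_cancel_left]
      rw [h2, Set.symmDiff_def]
      have h3 : symmDiff A {s | γ • s ∈ A} ∈ gen (B ∪ gen {A}) := sub_gen _ (Or.inl h1)
      exact hg.union (hg.diff hAg h3) (hg.diff h3 hAg)
    | univ => exact hg.univ
    | compl A _ ih => exact hg.compl _ ih
    | inter A A' _ _ ih ih' => exact hg.inter _ ih _ ih'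

end ex

end Q27.SCT
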